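import Pool.Agent.P.MP_d66c6d_pr.R.Defs
import Pool.Agent.P.MP_d66c6d_pr.U.Iface2
import Pool.Agent.P.MP_d66c6d_pr.T.Iface
import Pool.Agent.P.MP_d66c6d_pr.G.IfaceX
import Pool.Agent.P.MP_d66c6d_pr.L.Iface

/-!
Statements of the chapter on completions.
-/

namespace Pool.Agent.P.MP_d66c6d_pr

open MeasureTheory ProbabilityTheory Set Metric Filter Topology
open scoped ENNReal

-- deps: LOOP MARKR EV REV
/-- A strand closed by a bridge avoids the null sets of the loop measure. -/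
def S_RLOOP : Prop := ∀ ν : Measure Br, IsBridge ν → ∀ N : Set KC, MeasurableSet N →
  muK ν N = 0 → ∀ᵐ z : ℂ, ∀ᵐ z' : ℂ, ∀ᵐ β ∂grM ν z z', ∀ᵐ q ∂(volume : Measure ℝ).prod ν,
    0 < q.1 → clsP β.2 q ∉ N

-- deps: RLOOP MARKR LOOP
/-- The new loops of one path. -/
def S_RONE : Prop := ∀ ν : Measure Br, IsBridge ν → ∀ A : Set KC, MeasurableSet A →
  ∀ ϖ : Measure TP, ϖ ≪ GR ν + LM ν → GdP ν A ϖ

-- deps:
/-- The new loops of finitely many paths. -/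
def S_RMUL : Prop := ∀ ν : Measure Br, IsBridge ν → ∀ A : Set KC, MeasurableSet A →
  ∀ (ι : Type) [Fintype ι] (ϖ : ι → Measure TP), (∀ j, IsFiniteMeasure (ϖ j)) →
  (∀ j, GdP ν A (ϖ j)) → ∀ G, InsC ((muK ν).restrict A) G → ∀ S ∉ G,
  ∀ᵐ η ∂Measure.pi ϖ, ∀ F : ι → Cfg KC → Prop,
    (∀ j, ∃ k, ∃ᵐ u ∂xiP ν k, okC k (η j) u ∧ (newT k (η j) u).pts ⊆ A ∧ F j (newT k (η j) u)) →
    ∃ T : ι → Cfg KC, (∀ j, F j (T j)) ∧ S ∪ Cfg.iun T ∉ G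

-- deps: PPA PPO RJ
/-- Null sets of Poisson laws: insertion and deletion. -/
def S_RINS : Prop := ∀ (E : Type) [MeasurableSpace E] (m : Measure E), SFinite m →
  (∀ (B : Set E) (m' : Measure E), MeasurableSet B → m B ≠ ∞ → SFinite m' → m' ≪ m.restrict B →
    ∀ G, MeasurableSet G → PP m G = 0 → ∃ G', G ⊆ G' ∧ InsC m' G' ∧ PP m G' = 0) ∧
  ∀ A, MeasurableSet A → m Aᶜ ≠ ∞ → PP (m.restrict A) ≪ PP m

-- deps: LOOP MUK REV CUT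
/-- Loops that leave a disc can be rooted outside it. -/
def S_RROOT : Prop := ∀ ν : Measure Br, IsBridge ν → ∀ (ρ : ℝ) (m : Measure KC),
  IsFiniteMeasure m → m ≪ (muK ν).restrict (inK (closedBall 0 ρ))ᶜ →
  ∃ ϖ : Measure TP, IsFiniteMeasure ϖ ∧ ϖ ≪ LM ν ∧ ϖ.map (fun p => trB p.2) = m ∧
    ∀ᵐ p ∂ϖ, 0 < p.1 ∧ p.2 0 ∉ closedBall (0 : ℂ) ρ ∧ p.2 1 ∉ closedBall (0 : ℂ) ρ

-- deps:
-- imports: Pool.Agent.P.MP_d66c6d_pr.S.Supp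
/-- A closing path can stay in any domain. -/
def S_RCLO : Prop := ∀ ν : Measure Br, IsBridge ν → ∀ U : Set ℂ, IsOpen U → IsPreconnected U →
  ∀ x ∈ U, ∀ y ∈ U, ∃ᵐ q ∂(volume : Measure ℝ).prod ν, 0 < q.1 ∧ range (seg x y q.1 q.2) ⊆ U

-- deps: EV CUT
/-- Decomposition of a path into excursions. -/
def S_RPCS : Prop := ∀ p : TP, 0 < p.1 → p.2 0 ∉ ball (0 : ℂ) (7 / 5) →
  p.2 1 ∉ closedBall (0 : ℂ) (7 / 5) → ∃ (n : ℕ) (g : Fin n → Br), Pcs n p g ∧ Exc (range p.2) g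

-- deps: EV RCLO
/-- Fitting new loops occur with positive mass. -/
def S_RFIT : Prop := ∀ ν : Measure Br, IsBridge ν → ∀ U : Set ℂ, IsOpen U → IsPreconnected U →
  ∀ (n : ℕ) (p : TP) (g : Fin n → Br), 0 < p.1 → Pcs n p g → Exc univ g →
  (∀ j, g j 0 ∈ U ∧ g j 1 ∈ U) →
  ∃ᵐ u ∂xiP ν n, okC n p u ∧ Fit ((⋃ j, range (g j)) ∪ U) p (newT n p u)

-- deps:
/-- Finite unions of paths are locally connected. -/
def S_RLC : Prop := ∀ F : Set (Set ℂ), F.Finite → (∀ K ∈ F, ∃ γ : Br, range γ = K) →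
  IsCompact (⋃₀ F) ∧ ∀ p, LCat (⋃₀ F) p

-- deps: EIL
/-- The theorem of Janiszewski for finite families; clusters of finite families. -/
def S_RJAN : Prop :=
  (∀ (C : Set ℂ) (D : Set (Set ℂ)) (x y : ℂ), IsCompact C → D.Finite → (∀ K ∈ D, IsCompact K) →
    D.PairwiseDisjoint id → (∀ K ∈ D, IsPreconnected (C ∩ K)) → JoinedIn Cᶜ x y →
    (∀ K ∈ D, JoinedIn Kᶜ x y) → JoinedIn (C ∪ ⋃₀ D)ᶜ x y) ∧
  (∀ (T : Set (Set ℂ)) (w : ℝ), T.Finite → (∀ K ∈ T, IsCompact K ∧ IsPreconnected K) →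
    (∀ K ∈ T, ∀ x ∈ K, ∀ y ∈ cluster T K, dist x y ≤ w) → ∃ B, Blobs w B ∧ ⋃₀ B = ⋃₀ T) ∧
  ∀ (c x y : ℂ) (r : ℝ), x ∉ closedBall c r → y ∉ closedBall c r → JoinedIn (closedBall c r)ᶜ x y

-- deps: RJAN
/-- A detour around small obstacles. -/
def S_RDTR : Prop := ∀ (w r : ℝ) (B : Set (Set ℂ)) (π : Br), Blobs w B → 0 ≤ w → w < r →
  (∀ K ∈ B, JoinedIn Kᶜ (π 0) (π 1)) → JoinedIn (thickening r (range π) \ ⋃₀ B) (π 0) (π 1)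

-- deps: RJAN
/-- Small discs on the circle of radius `7 / 5` do not separate. -/
def S_RPHA : Prop := ∀ N P : Set ℂ, IsCompact N → N ⊆ closedBall 0 (7 / 5) → P.Finite →
  P ⊆ sphere 0 (7 / 5) → (∀ p, LCat N p) → ∃ s ∈ Ioc (0 : ℝ) (1 / 100),
  ∀ (B : Set (Set ℂ)) (M : Set ℂ), Blobs (s / 100) B → IsCompact M → M ⊆ closedBall 0 (27 / 20) →
  ∀ x y : ℂ, (∀ p ∈ P, 1 / 100 < dist x p ∧ 1 / 100 < dist y p) → JoinedIn (N ∪ M ∪ ⋃₀ B)ᶜ x y →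
    JoinedIn (N ∪ M ∪ ⋃₀ B ∪ ⋃ p ∈ P, closedBall p s)ᶜ x y

-- deps:
/-- Replacement of the excursions of a path. -/
def S_RPHB : Prop := ∀ (O : Set ℂ) (γ : Br) (a b : ℝ), a < b → γ 0 ∈ closedBall (0 : ℂ) a →
  γ 1 ∉ closedBall (0 : ℂ) a →
  (∀ s t : unitInterval, s ≤ t → Disjoint (γ '' Icc s t) (closedBall 0 a) →
    γ s ∈ closedBall (0 : ℂ) b → (γ t ∈ closedBall (0 : ℂ) b ∨ t = 1) →
    JoinedIn O (γ s) (γ t)) →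
  JoinedIn ((range γ ∩ closedBall 0 b) ∪ O) (γ 0) (γ 1)

-- deps:
/-- Annuli with a slit. -/
def S_RSEC : Prop := ∀ (P : Set ℂ) (s R : ℝ), P.Finite → P ⊆ sphere 0 (7 / 5) →
  s ∈ Ioc (0 : ℝ) (1 / 100) → ∃ (J : ℕ) (U : Fin J → Set ℂ), ∃ w > (0 : ℝ),
  (∀ i, IsOpen (U i) ∧ IsPreconnected (U i) ∧ P ⊆ U i ∧
    U i ⊆ ball 0 3 \ closedBall 0 (139 / 100) ∧
    U i ∩ closedBall 0 (7 / 5 + s / 4) ⊆ ⋃ p ∈ P, closedBall p s) ∧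
  ∀ y ∈ sphere (0 : ℂ) (7 / 5 + s / 4), (∀ p ∈ P, s ≤ dist y p) → ∃ i, ∃ π : Br, π 0 = y ∧
    π 1 ∉ ball (0 : ℂ) R ∧ Disjoint (thickening w (range π)) (U i ∪ closedBall 0 (7 / 5))

-- deps: RJAN RDTR RPHA RPHB RSEC
/-- Every crossing can be continued in one of finitely many completions. -/
def S_RDET : Prop := ∀ (N P : Set ℂ) (R : ℝ), IsCompact N → N ⊆ closedBall 0 (7 / 5) → P.Finite →
  P ⊆ sphere 0 (7 / 5) → (∀ p, LCat N p) → ∃ (J : ℕ) (U : Fin J → Set ℂ), ∃ w > (0 : ℝ),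
  (∀ i, IsOpen (U i) ∧ IsPreconnected (U i) ∧ P ⊆ U i ∧
    U i ⊆ ball 0 3 \ closedBall 0 (27 / 20)) ∧ Opn R w N U

-- deps: RJAN
/-- From fitting loops to a family of completions. -/
def S_RCMP : Prop := ∀ (R D w δ : ℝ) (T₀ : Set (Set ℂ)) (J : ℕ) (U : Fin J → Set ℂ) (ι : Type)
  [Finite ι] (η : ι → TP) (N : ι → Set ℂ) (T : Fin J → ι → Cfg KC),
  3 ≤ R → 3 ≤ D → 0 < δ → δ ≤ 1 / 25 → Tame T₀ →
  (∀ K ∈ T₀, diam K < δ → ∀ x ∈ K, ∀ y ∈ cluster {K' ∈ T₀ | diam K' < δ} K, dist x y ≤ w) →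
  (∀ K ∈ T₀, K ⊆ ball 0 D → (K ∩ closedBall 0 (13 / 10)).Nonempty → K ⊆ closedBall 0 (7 / 5)) →
  (∀ j, (η j).2 0 ∉ closedBall (0 : ℂ) (7 / 5) ∧ N j ⊆ range (η j).2 ∩ closedBall 0 (7 / 5) ∧
    ((N j).Nonempty → (range (η j).2 ∩ closedBall 0 (13 / 10)).Nonempty)) →
  (∀ i, U i ⊆ ball 0 3 \ closedBall 0 (27 / 20)) → Opn R w ((⋃ j, N j) ∪ ⋃₀ Unc T₀) U →
  (∀ i j, Fit (N j ∪ U i) (η j) (T i j)) →
  Compl R (ins (ball 0 D) T₀ ∪ range fun j => range (η j).2)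
    fun i => {K ∈ T₀ | Keep R δ K} ∪ sets (Cfg.iun (T i))

-- deps: RPCS RFIT RLC RDET RCMP
/-- The choice of the completions for one configuration. -/
def S_RCORE : Prop := ∀ ν : Measure Br, IsBridge ν → ∀ (R D c₀ c₂ : ℝ) (S : Cfg (KC × ℝ))
  (G : Set (Cfg (KC × ℝ))) (ι : Type) [Finite ι] (η : ι → TP), 3 ≤ R → 3 ≤ D → c₀ < c₂ →
  Tame (sets (lev c₂ S)) → SubT (sets (lev c₂ S)) →
  (∀ p ∈ S.pts, ∃ γ : Br, range γ = (p.1 : Set ℂ)) →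
  {p ∈ S.pts | 1 / 25 ≤ diam (p.1 : Set ℂ)}.Finite →
  (∀ p ∈ S.pts, p.2 ≤ c₀ → (p.1 : Set ℂ) ⊆ ball 0 D →
    ((p.1 : Set ℂ) ∩ closedBall 0 (13 / 10)).Nonempty → (p.1 : Set ℂ) ⊆ closedBall 0 (7 / 5)) →
  (∀ j, 0 < (η j).1 ∧ (η j).2 0 ∉ closedBall (0 : ℂ) (7 / 5) ∧
    (η j).2 1 ∉ closedBall (0 : ℂ) (7 / 5)) →
  (∀ (m : ℕ) (F : ι → Cfg KC → Prop), (∀ j, ∃ k, ∃ᵐ u ∂xiP ν k, okC k (η j) u ∧
      (newT k (η j) u).pts ⊆ inK (ball 0 3) ∩ bigK (1 / 25) ∧ F j (newT k (η j) u)) →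
    ∃ T : ι → Cfg KC, (∀ j, F j (T j)) ∧
      S.res {p | Keep R (1 / ((m : ℝ) + 1)) p.1} ∪ (Cfg.iun T).map (fun K => (K, c₀)) ∉ G) →
  ∃ c' > c₀, ∃ (J : ℕ) (𝒯 : Fin J → Cfg (KC × ℝ)), (∀ i, 𝒯 i ∉ G) ∧ ∀ c ∈ Icc c₀ c',
    Compl R (ins (ball 0 D) (sets (lev c S)) ∪ range fun j => range (η j).2)
      fun i => sets (lev c (𝒯 i))

-- deps: RCORE RONE RMUL RINS RROOT SUB LVA PPF PPO MUK REV
/-- Almost every local configuration has a family of completions outside a null set. -/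
def S_RNUL : Prop := ∀ ν : Measure Br, IsBridge ν → ∀ (L : ℝ) (β : Measure TP), Str ν L β →
  ∀ c₀ c₂ θ : ℝ, 0 < c₀ → c₀ < c₂ → c₂ ≤ 1 → Lvl ν c₂ θ → ∀ R : ℝ, 3 ≤ R → ∀ (n : ℕ)
  (G : Set (Cfg (KC × ℝ))), MeasurableSet G → lsoup ν c₀ R G = 0 →
  ∀ E : Set (Cfg (KC × ℝ) × (Fin n → TP)), MeasurableSet E →
  (∀ q ∈ E, ∀ c' > c₀, ∀ (J : ℕ) (𝒯 : Fin J → Cfg (KC × ℝ)),
    (∀ c ∈ Icc c₀ c', Compl R (sets (locX (10 * L) c q)) fun i => sets (lev c (𝒯 i))) →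
    ∃ i, 𝒯 i ∈ G) →
  (lsoup ν c₀ (max R (10 * L))).prod (Measure.pi fun _ : Fin n => β) E = 0

end Pool.Agent.P.MP_d66c6d_pr
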