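import Pool.Agent.P.MP_d66c6d_pr.G.Defs
import Pool.Agent.P.MP_d66c6d_pr.U.Defs2

/-!
Completions: the pieces of a path near the unit disc are closed into loops.
-/

namespace Pool.Agent.P.MP_d66c6d_pr

open MeasureTheory ProbabilityTheory Set Metric Filter Topology
open scoped ENNReal

/-- Two cut times, and the duration and the bridge of a closing path. -/
abbrev Xi : Type := (ℝ × ℝ) × ℝ × Br

/-- The reference measure on one cut. -/
noncomputable def xiM (ν : Measure Br) : Measure Xi :=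
  ((volume : Measure ℝ).prod (volume : Measure ℝ)).prod ((volume : Measure ℝ).prod ν)

/-- The reference measure on `k` cuts. -/
noncomputable def xiP (ν : Measure Br) (k : ℕ) : Measure (Fin k → Xi) :=
  Measure.pi fun _ => xiM ν

/-- The trace of `β` closed by the path of duration `q.1` built from the bridge `q.2`. -/
noncomputable def clsP (β : Br) (q : ℝ × Br) : KC := trB β ⊔ trB (seg (β 1) (β 0) q.1 q.2)

/-- The loop made from the piece between the cut times. -/
noncomputable def clo (p : TP) (u : Xi) : KC := clsP (hd u.1.2 (tl u.1.1 p)).2 u.2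

/-- The part after the second cut time. -/
noncomputable def rest (p : TP) (u : Xi) : TP := tl u.1.2 (tl u.1.1 p)

/-- The new loops. -/
noncomputable def newT : (k : ℕ) → TP → (Fin k → Xi) → Cfg KC
  | 0, _, _ => ∅
  | k + 1, p, u => insert (clo p (u 0)) (newT k (rest p (u 0)) (Fin.tail u))

/-- The cut times are admissible. -/
def okC : (k : ℕ) → TP → (Fin k → Xi) → Prop
  | 0, _, _ => True
  | k + 1, p, u => (0 < (u 0).1.1 ∧ 0 < (u 0).1.2 ∧ (u 0).1.1 + (u 0).1.2 < p.1 ∧ 0 < (u 0).2.1) ∧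
      okC k (rest p (u 0)) (Fin.tail u)

/-- The complement of `G` is stable under the insertion of almost every point. -/
def InsC {E : Type} [MeasurableSpace E] (m : Measure E) (G : Set (Cfg E)) : Prop :=
  MeasurableSet G ∧ ∀ S ∉ G, ∀ᵐ x ∂m, insert x S ∉ G

/-- The new loops made from almost every path avoid the insertion-closed sets. -/
def GdP (ν : Measure Br) (A : Set KC) (ϖ : Measure TP) : Prop :=
  ∀ G, InsC ((muK ν).restrict A) G → ∀ S ∉ G, ∀ᵐ p ∂ϖ, ∀ k, ∀ᵐ u ∂xiP ν k, okC k p u →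
    (newT k p u).pts ⊆ A → S ∪ newT k p u ∉ G

/-- The loops of `T` are big, lie in `M` and cover the part of the path in the inner disc. -/
def Fit (M : Set ℂ) (p : TP) (T : Cfg KC) : Prop :=
  T.pts.Finite ∧ (∀ K ∈ T.pts, (K : Set ℂ) ⊆ M ∧ 1 / 25 ≤ diam (K : Set ℂ)) ∧
    range p.2 ∩ closedBall 0 (13 / 10) ⊆ ⋃₀ sets T

/-- The paths `g` are the successive excursions of `p` from the circle of radius `7 / 5` that meet
the disc of radius `13 / 10`. -/
def Pcs : (n : ℕ) → TP → (Fin n → Br) → Prop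
  | 0, p, _ => Disjoint (range p.2) (closedBall 0 (13 / 10))
  | n + 1, p, g => ∃ u v : ℝ, 0 ≤ u ∧ u < v ∧ v < p.1 ∧
      Disjoint (ev p '' Icc 0 u) (closedBall 0 (13 / 10)) ∧ range (g 0) = ev p '' Icc u v ∧
      g 0 0 = ev p u ∧ g 0 1 = ev p v ∧ (range (g 0) ∩ closedBall 0 (13 / 10)).Nonempty ∧
      ∀ b, 0 ≤ b → b ≤ v → Disjoint (ev p '' Icc b v) (closedBall 0 (13 / 10)) →
        Pcs n (tl b p) (Fin.tail g)

/-- The paths `g` lie in `N` and in the disc of radius `7 / 5`, and end on its boundary. -/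
def Exc {n : ℕ} (N : Set ℂ) (g : Fin n → Br) : Prop :=
  ∀ j, range (g j) ⊆ N ∩ closedBall 0 (7 / 5) ∧ g j 0 ∈ sphere (0 : ℂ) (7 / 5) ∧
    g j 1 ∈ sphere (0 : ℂ) (7 / 5) ∧ (range (g j) ∩ closedBall 0 (13 / 10)).Nonempty

/-- Local connectedness of `N` at the point `p`. -/
def LCat (N : Set ℂ) (p : ℂ) : Prop :=
  ∀ η > (0 : ℝ), ∃ s > (0 : ℝ), ∃ κ : Set ℂ, IsCompact κ ∧ IsPreconnected κ ∧
    κ ⊆ N ∩ closedBall p η ∧ N ∩ closedBall p s ⊆ κ

/-- A finite family of pairwise disjoint continua of diameter at most `w`. -/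
structure Blobs (w : ℝ) (B : Set (Set ℂ)) : Prop where
  fin : B.Finite
  cpt : ∀ K ∈ B, IsCompact K
  conn : ∀ K ∈ B, IsPreconnected K
  disj : B.PairwiseDisjoint id
  small : ∀ K ∈ B, ∀ x ∈ K, ∀ y ∈ K, dist x y ≤ w

/-- Every crossing that avoids the obstacles can be continued to the distance `R` outside one of
the sets `U i`. -/
def Opn {J : ℕ} (R w : ℝ) (N : Set ℂ) (U : Fin J → Set ℂ) : Prop :=
  ∀ (B : Set (Set ℂ)) (M : Set ℂ), Blobs w B → IsCompact M → M ⊆ closedBall 0 (27 / 20) →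
    ∀ γ : Br, γ 0 ∈ ball (0 : ℂ) (13 / 10) → γ 1 ∉ ball (0 : ℂ) (31 / 20) →
    Disjoint (range γ ∩ closedBall 0 (31 / 20)) (N ∪ M ∪ ⋃₀ B) →
    ∃ i, ∃ γ' : Br, γ' 0 = γ 0 ∧ γ' 1 ∉ ball (0 : ℂ) R ∧
      Disjoint (range γ') (N ∪ M ∪ U i ∪ ⋃₀ B) ∧ range γ' ∩ closedBall 0 (13 / 10) ⊆ range γ

/-- The members that are kept in a completion. -/
def Keep (R δ : ℝ) (K : Set ℂ) : Prop := K ⊆ ball 0 R ∧
  (diam K < δ ∨ ((K ∩ closedBall 0 (13 / 10)).Nonempty ∧ K ⊆ closedBall 0 (7 / 5)))

/-- The big members near the inner disc that are not cut. -/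
def Unc (T : Set (Set ℂ)) : Set (Set ℂ) :=
  {K ∈ T | (K ∩ closedBall 0 (13 / 10)).Nonempty ∧ K ⊆ closedBall 0 (7 / 5) ∧ 1 / 25 ≤ diam K}

/-- The local configuration of level `c`: loops in the disc of radius `D` and strands. -/
noncomputable def locX (D c : ℝ) {n : ℕ} (q : Cfg (KC × ℝ) × (Fin n → TP)) : Cfg KC :=
  (lev c q.1).res (inK (ball 0 D)) ∪ arcs q.2

instance instSigmaXiM (ν : Measure Br) [SigmaFinite ν] : SigmaFinite (xiM ν) := by
  unfold xiM
  infer_instance

instance instSigmaXiP (ν : Measure Br) [SigmaFinite ν] (k : ℕ) : SigmaFinite (xiP ν k) := by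
  unfold xiP
  infer_instance

@[simp] theorem coe_clsP (β : Br) (q : ℝ × Br) :
    (clsP β q : Set ℂ) = range β ∪ range (seg (β 1) (β 0) q.1 q.2) := rfl

@[fun_prop] theorem Measurable.clsP' {α : Type*} [MeasurableSpace α] {β : α → Br} {q : α → ℝ × Br}
    (hβ : Measurable β) (hq : Measurable q) : Measurable fun a => clsP (β a) (q a) :=
  Measurable.supKC (Measurable.trB' hβ) (Measurable.trB' (Measurable.seg'
    (Measurable.evalBr hβ measurable_const) (Measurable.evalBr hβ measurable_const) hq.fst hq.snd))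

@[fun_prop] theorem Measurable.clo' {α : Type*} [MeasurableSpace α] {p : α → TP} {u : α → Xi}
    (hp : Measurable p) (hu : Measurable u) : Measurable fun a => clo (p a) (u a) :=
  Measurable.clsP' (Measurable.hd' hu.fst.snd (Measurable.tl' hu.fst.fst hp)).snd hu.snd

@[fun_prop] theorem Measurable.rest' {α : Type*} [MeasurableSpace α] {p : α → TP} {u : α → Xi}
    (hp : Measurable p) (hu : Measurable u) : Measurable fun a => rest (p a) (u a) :=
  Measurable.tl' hu.fst.snd (Measurable.tl' hu.fst.fst hp)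

theorem measurable_step (k : ℕ) : Measurable fun q : TP × (Fin (k + 1) → Xi) =>
    ((rest q.1 (q.2 0), Fin.tail q.2) : TP × (Fin k → Xi)) :=
  (Measurable.rest' measurable_fst ((measurable_pi_apply 0).comp measurable_snd)).prodMk
    (measurable_pi_lambda _ fun i => (measurable_pi_apply i.succ).comp measurable_snd)

theorem measurable_newT : ∀ k, Measurable fun q : TP × (Fin k → Xi) => newT k q.1 q.2
  | 0 => measurable_const
  | k + 1 => Measurable.cfgInsert
      (Measurable.clo' measurable_fst ((measurable_pi_apply 0).comp measurable_snd))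
      ((measurable_newT k).comp (measurable_step k))

theorem measurableSet_okC : ∀ k, MeasurableSet {q : TP × (Fin k → Xi) | okC k q.1 q.2}
  | 0 => by simp [okC]
  | k + 1 => by
    have h0 : Measurable fun q : TP × (Fin (k + 1) → Xi) => q.2 0 :=
      (measurable_pi_apply 0).comp measurable_snd
    refine MeasurableSet.inter (MeasurableSet.inter ?_ (MeasurableSet.inter ?_
      (MeasurableSet.inter ?_ ?_))) (measurable_step k (measurableSet_okC k))
    · exact measurableSet_lt measurable_const h0.fst.fst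
    · exact measurableSet_lt measurable_const h0.fst.snd
    · exact measurableSet_lt (h0.fst.fst.add h0.fst.snd) measurable_fst.fst
    · exact measurableSet_lt measurable_const h0.snd.fst

/-- The first coordinate and the other ones. -/
theorem mp_cons {α : Type} [MeasurableSpace α] (μ : Measure α) [SigmaFinite μ] (k : ℕ) :
    MeasurePreserving (fun q : α × (Fin k → α) => (Fin.cons q.1 q.2 : Fin (k + 1) → α))
      (μ.prod (Measure.pi fun _ => μ)) (Measure.pi fun _ => μ) := by
  have h := (measurePreserving_piFinSuccAbove (fun _ : Fin (k + 1) => μ) 0).symm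
  convert h using 1
  ext q i
  simp [MeasurableEquiv.piFinSuccAbove, Fin.insertNthEquiv]

theorem ae_cons {α : Type} [MeasurableSpace α] {μ : Measure α} [SigmaFinite μ] {k : ℕ}
    {P : (Fin (k + 1) → α) → Prop} (h : ∀ᵐ u ∂Measure.pi fun _ => μ, P u) :
    ∀ᵐ x ∂μ, ∀ᵐ v ∂(Measure.pi fun _ : Fin k => μ), P (Fin.cons x v) :=
  Measure.ae_ae_of_ae_prod ((mp_cons μ k).quasiMeasurePreserving.ae h)

theorem ae_of_cons {α : Type} [MeasurableSpace α] {μ : Measure α} [SigmaFinite μ] {k : ℕ}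
    {P : (Fin (k + 1) → α) → Prop} (hP : MeasurableSet {u | P u})
    (h : ∀ᵐ x ∂μ, ∀ᵐ v ∂(Measure.pi fun _ : Fin k => μ), P (Fin.cons x v)) :
    ∀ᵐ u ∂Measure.pi fun _ => μ, P u := by
  rw [← (mp_cons μ k).map_eq, ae_map_iff (mp_cons μ k).measurable.aemeasurable hP]
  exact (Measure.ae_prod_iff_ae_ae ((mp_cons μ k).measurable hP)).2 h

theorem tl_tl (p : TP) {a b : ℝ} (ha : 0 ≤ a) (hb : 0 ≤ b) (h : a + b < p.1) :
    tl b (tl a p) = tl (a + b) p := by
  have h1 : 0 < p.1 := by linarith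
  have h2 : 0 < p.1 - a := by linarith
  refine Prod.ext (by simp [tl]; ring) (ContinuousMap.ext fun s => ?_)
  have h3 : 0 ≤ b / (p.1 - a) := div_nonneg hb h2.le
  have h4 : b / (p.1 - a) ≤ 1 := (div_le_one h2).2 (by linarith)
  have h5 : b / (p.1 - a) + (s : ℝ) * (1 - b / (p.1 - a)) ∈ Icc (0 : ℝ) 1 :=
    ⟨add_nonneg h3 (mul_nonneg s.2.1 (by linarith)), by nlinarith [s.2.2]⟩
  simp only [tl, sub_apply, projIcc_of_mem _ h5]
  congr 2
  field_simp
  ring

end Pool.Agent.P.MP_d66c6d_pr
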