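import Pool.Agent.P.MP_d66c6d_pr.R.Iface
import Pool.Agent.P.MP_d66c6d_pr.S.Supp

/-! Step RCLO of the carpet project. -/

namespace Pool.Agent.P.MP_d66c6d_pr

open MeasureTheory ProbabilityTheory Set Metric Filter Topology
open scoped ENNReal

theorem p_RCLO :
    S_RCLO := by
  intro ν hν U hU hc x hx y hy
  have := hν.gauss
  obtain ⟨γ, hγ⟩ := (hU.isConnected_iff_isPathConnected.1 ⟨⟨x, hx⟩, hc⟩).joinedIn x hx y hy
  have hO : IsOpen {q : ℝ × Br | 0 < q.1 ∧ range (seg x y q.1 q.2) ⊆ U} :=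
    (isOpen_lt continuous_const continuous_fst).inter ((isOpen_rangeSub hU).preimage
      (continuous_seg.comp (f := fun q : ℝ × Br => (x, y, q)) (by fun_prop)))
  obtain ⟨η, hη, hb⟩ := Metric.isOpen_iff.1 hO (1, γ.toContinuousMap - seg x y 0 0)
    ⟨one_pos, range_subset_iff.2 fun s => by simpa [seg_apply] using hγ s⟩
  rw [frequently_ae_iff]
  refine fun h0 => absurd (measure_mono_null hb h0) ?_
  rw [← ball_prod_same, Measure.prod_prod]
  exact mul_ne_zero (measure_ball_pos _ _ hη).ne'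
    (hν.tube (by simp [seg_apply]) (by simp [seg_apply]) hη)

end Pool.Agent.P.MP_d66c6d_pr
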