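import Pool.Agent.P.MP_d66c6d_pr.R.Iface

/-! Step RCMP of the carpet project. -/

namespace Pool.Agent.P.MP_d66c6d_pr

open MeasureTheory ProbabilityTheory Set Metric Filter Topology
open scoped ENNReal

namespace RcmpA

theorem near_sub {K : Set ℂ} (hK : IsCompact K) {z : ℂ} (hz : z ∈ K) {a b c : ℝ}
    (ha : z ∈ closedBall (0 : ℂ) a) (hb : diam K ≤ b) (h : a + b ≤ c) : K ⊆ closedBall 0 c := by
  intro y hy
  have h1 := dist_le_diam_of_mem hK.isBounded hy hz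
  rw [mem_closedBall] at ha ⊢
  linarith [dist_triangle y z 0]

theorem strand {γ : Br} (h0 : γ 0 ∉ closedBall (0 : ℂ) (7 / 5))
    (h1 : (range γ ∩ closedBall 0 (13 / 10)).Nonempty) : 1 / 25 ≤ diam (range γ) := by
  obtain ⟨z, z1, z2⟩ := h1
  have h2 := dist_le_diam_of_mem (isCompact_range γ.continuous).isBounded (mem_range_self 0) z1
  rw [mem_closedBall] at h0 z2
  linarith [dist_triangle (γ 0) z 0, not_le.1 h0]

theorem cl_mono {T T' : Set (Set ℂ)} (h : T ⊆ T') (K : Set ℂ) : cluster T K ⊆ cluster T' K := by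
  refine sUnion_subset_sUnion fun A hA => ?_
  induction hA with
  | refl => exact .refl
  | tail _ h2 ih => exact .tail ih ⟨h h2.1, h2.2⟩

theorem mem_iun {ι : Type} {T : ι → Cfg KC} {A : Set ℂ} :
    A ∈ sets (Cfg.iun T) ↔ ∃ j, ∃ K ∈ (T j).pts, (K : Set ℂ) = A := by
  constructor
  · rintro ⟨K, hK, rfl⟩
    obtain ⟨j, hj⟩ := mem_iUnion.1 hK
    exact ⟨j, K, hj, rfl⟩
  · rintro ⟨j, K, hK, rfl⟩
    exact ⟨K, mem_iUnion.2 ⟨j, hK⟩, rfl⟩

theorem cpt_sUnion {F : Set (Set ℂ)} (h : F.Finite) (h' : ∀ K ∈ F, IsCompact K) :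
    IsCompact (⋃₀ F) := by
  rw [sUnion_eq_biUnion]
  exact h.isCompact_biUnion h'

end RcmpA

open RcmpA in
theorem p_RCMP (hRJAN : S_RJAN) :
    S_RCMP := by
  intro R D w δ T₀ J U ι _ η N T hR hD hδ hδ' hT hw hin hN hU hO hF
  have cp : ∀ K ∈ T₀, IsCompact K := fun K hK => (hT.1 K hK).1
  have b3 : ∀ {a r : ℝ}, a < 3 → 3 ≤ r → closedBall (0 : ℂ) a ⊆ ball 0 r :=
    fun h h' => closedBall_subset_ball (h.trans_le h')
  have hnew : ∀ i, ∀ A ∈ sets (Cfg.iun (T i)), ∃ j, A ⊆ N j ∪ U i := fun i A hA => by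
    obtain ⟨j, K, hK, rfl⟩ := mem_iun.1 hA
    exact ⟨j, ((hF i j).2.1 K hK).1⟩
  refine ⟨fun i ξ h0 h1 => ?_, fun i K hK hK2 => ?_, fun ξ h0 => ?_⟩
  · ext z
    refine and_congr_left fun hz => ?_
    have hz' := ball_subset_closedBall hz
    rw [mem_TT, mem_TT]
    constructor
    · rintro ⟨K, hK | ⟨j, rfl⟩, hd, hzK⟩
      · have h2 := hin K hK.1 hK.2 ⟨z, hzK, hz'⟩
        exact ⟨K, Or.inl ⟨hK.1, h2.trans (b3 (by norm_num) hR), Or.inr ⟨⟨z, hzK, hz'⟩, h2⟩⟩,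
          hd, hzK⟩
      · obtain ⟨_, ⟨L, hL, rfl⟩, hzL⟩ := (hF i j).2.2 ⟨hzK, hz'⟩
        exact ⟨L, Or.inr (mem_iun.2 ⟨j, L, hL, rfl⟩), h1.trans ((hF i j).2.1 L hL).2, hzL⟩
    · rintro ⟨K, hK | hK, hd, hzK⟩
      · refine ⟨K, Or.inl ⟨hK.1, ?_⟩, hd, hzK⟩
        rcases hK.2.2 with h | h
        · exact (near_sub (c := 2) (cp K hK.1) hzK hz' (h.le.trans hδ') (by norm_num)).trans
            (b3 (by norm_num) hD)
        · exact h.2.trans (b3 (by norm_num) hD)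
      · obtain ⟨j, hj⟩ := hnew i K hK
        rcases hj hzK with h | h
        · exact ⟨_, Or.inr ⟨j, rfl⟩,
            h1.trans (strand (hN j).1 ((hN j).2.2 ⟨z, h⟩)), ((hN j).2.1 h).1⟩
        · exact absurd (closedBall_subset_closedBall (by norm_num) hz') (hU i h).2
  · rcases hK with hK | hK
    · obtain ⟨z, z1, z2⟩ := hK2
      rcases hK.2.2 with h | h
      · exact (near_sub (c := 5 / 2) (cp K hK.1) z1 z2 (h.le.trans hδ') (by norm_num)).trans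
          (b3 (by norm_num) le_rfl)
      · exact h.2.trans (b3 (by norm_num) le_rfl)
    · obtain ⟨j, hj⟩ := hnew i K hK
      exact hj.trans (union_subset (((hN j).2.1.trans inter_subset_right).trans
        (b3 (by norm_num) le_rfl)) ((hU i).trans sdiff_subset))
  · have hm : 0 < min ξ δ := lt_min h0 hδ
    have hm' : min ξ δ ≤ 1 / 25 := (min_le_right _ _).trans hδ'
    obtain ⟨B, hB, eB⟩ := hRJAN.2.1 {K ∈ T₀ | min ξ δ ≤ diam K ∧ diam K < δ} w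
      ((hT.2 _ hm).subset fun K hK => ⟨hK.1, hK.2.1⟩)
      (fun K hK => ⟨cp K hK.1, (hT.1 K hK.1).2.1.isConnected.isPreconnected⟩)
      fun K hK x hx y hy => hw K hK.1 hK.2.2 x hx y
        (cl_mono (fun A hA => And.intro hA.1 hA.2.2) K hy)
    set M : Set (Set ℂ) := {K ∈ T₀ | δ ≤ diam K ∧ diam K < 1 / 25 ∧
      (K ∩ closedBall 0 (13 / 10)).Nonempty} with hM
    have hMc : IsCompact (⋃₀ M) :=
      cpt_sUnion ((hT.2 _ hδ).subset fun K hK => ⟨hK.1, hK.2.1⟩) fun K hK => cp K hK.1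
    have hMb : ∀ K ∈ M, K ⊆ closedBall 0 (27 / 20) := fun K hK => by
      obtain ⟨z, z1, z2⟩ := hK.2.2.2
      exact near_sub (cp K hK.1) z1 z2 hK.2.2.1.le (by norm_num)
    refine ⟨min ξ δ, hm, fun γ g0 g1 hγ => ?_⟩
    have key : ∀ K ∈ ins (ball 0 D) T₀ ∪ range fun j => range (η j).2, min ξ δ ≤ diam K →
        ∀ z ∈ range γ, z ∉ K := fun K hK hd z hz =>
      Set.disjoint_left.1 (Free.disjoint hK hd) (hγ hz)
    obtain ⟨i, γ', a0, a1, a2, a3⟩ := hO B (⋃₀ M) hB hMc (sUnion_subset hMb) γ g0 g1 (by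
      rw [eB]
      refine Set.disjoint_left.2 ?_
      rintro z ⟨z1, z2⟩ (((h | ⟨K, hK, h⟩) | ⟨K, hK, h⟩) | ⟨K, hK, h⟩)
      · obtain ⟨j, hj⟩ := mem_iUnion.1 h
        exact key _ (Or.inr ⟨j, rfl⟩) (hm'.trans (strand (hN j).1 ((hN j).2.2 ⟨z, hj⟩))) z z1
          ((hN j).2.1 hj).1
      · exact key K (Or.inl ⟨hK.1, hK.2.2.1.trans (b3 (by norm_num) hD)⟩)
          (hm'.trans hK.2.2.2) z z1 h
      · exact key K (Or.inl ⟨hK.1, (hMb K hK).trans (b3 (by norm_num) hD)⟩)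
          ((min_le_right _ _).trans hK.2.1) z z1 h
      · exact key K (Or.inl ⟨hK.1, (near_sub (c := 2) (cp K hK.1) h z2 (hK.2.2.le.trans hδ')
          (by norm_num)).trans (b3 (by norm_num) hD)⟩) hK.2.1 z z1 h)
    refine ⟨i, γ', a0, a1, fun z hz => ?_, a3⟩
    have hfin : (sets (Cfg.iun (T i))).Finite :=
      (Set.finite_iUnion fun j => (hF i j).1).image _
    have hc : IsCompact (TT ξ ({K ∈ T₀ | Keep R δ K} ∪ sets (Cfg.iun (T i)))) := by
      refine cpt_sUnion (((hT.2 ξ h0).union hfin).subset ?_) ?_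
      · rintro K ⟨hK | hK, hd⟩
        · exact Or.inl ⟨hK.1, hd⟩
        · exact Or.inr hK
      · rintro K ⟨hK | ⟨L, -, rfl⟩, -⟩
        · exact cp K hK.1
        · exact L.isCompact
    rw [Free, hc.isClosed.closure_eq]
    intro hz'
    refine Set.disjoint_left.1 a2 hz ?_
    rw [eB]
    obtain ⟨K, hK | hK, hd, hzK⟩ := mem_TT.1 hz'
    · rcases lt_or_ge (diam K) δ with h | h
      · exact Or.inr ⟨K, ⟨hK.1, (min_le_left _ _).trans hd, h⟩, hzK⟩
      · have h2 := hK.2.2.resolve_left (not_lt.2 h)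
        rcases lt_or_ge (diam K) (1 / 25) with h' | h'
        · exact Or.inl (Or.inl (Or.inr ⟨K, ⟨hK.1, h, h', h2.1⟩, hzK⟩))
        · exact Or.inl (Or.inl (Or.inl (Or.inr ⟨K, ⟨hK.1, h2.1, h2.2, h'⟩, hzK⟩)))
    · obtain ⟨j, hj⟩ := hnew i K hK
      rcases hj hzK with h | h
      · exact Or.inl (Or.inl (Or.inl (Or.inl (mem_iUnion.2 ⟨j, h⟩))))
      · exact Or.inl (Or.inr h)

end Pool.Agent.P.MP_d66c6d_pr
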