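import Pool.Agent.P.MP_d66c6d_pr.R.Iface

/-! Step RCORE of the carpet project. -/

namespace Pool.Agent.P.MP_d66c6d_pr

open MeasureTheory ProbabilityTheory Set Metric Filter Topology
open scoped ENNReal

namespace RcoreA

theorem mem_lev {c : ℝ} {S : Cfg (KC × ℝ)} {A : Set ℂ} :
    A ∈ sets (lev c S) ↔ ∃ p ∈ S.pts, p.2 ≤ c ∧ (p.1 : Set ℂ) = A :=
  ⟨fun ⟨_, ⟨p, hp, e⟩, e'⟩ => ⟨p, hp.1, hp.2, by rw [e]; exact e'⟩,
    fun ⟨p, h1, h2, e⟩ => ⟨p.1, ⟨p, ⟨h1, h2⟩, rfl⟩, e⟩⟩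

theorem lev_mono {c c' : ℝ} (h : c ≤ c') (S : Cfg (KC × ℝ)) :
    sets (lev c S) ⊆ sets (lev c' S) := fun _ hA => by
  obtain ⟨p, h1, h2, e⟩ := mem_lev.1 hA
  exact mem_lev.2 ⟨p, h1, h2.trans h, e⟩

theorem cluster_mono {T T' : Set (Set ℂ)} (h : T ⊆ T') (K : Set ℂ) :
    cluster T K ⊆ cluster T' K := by
  refine sUnion_subset_sUnion fun A hK => ?_
  induction hK with
  | refl => exact Relation.ReflTransGen.refl
  | tail _ e ih => exact Relation.ReflTransGen.tail ih ⟨h e.1, e.2⟩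

theorem gap {c₀ c₂ : ℝ} (h : c₀ < c₂) {A : Set ℝ} (hA : A.Finite) :
    ∃ c', c₀ < c' ∧ c' ≤ c₂ ∧ ∀ a ∈ A, a ≤ c' → a ≤ c₀ := by
  obtain ⟨μ, h1, h2⟩ := Set.exists_min_image (insert c₂ {a ∈ A | c₀ < a}) id
    ((hA.subset (sep_subset _ _)).insert _) (insert_nonempty _ _)
  have h3 : c₀ < μ := by
    rcases h1 with rfl | h1
    · exact h
    · exact h1.2
  have h4 : μ ≤ c₂ := h2 c₂ (mem_insert _ _)
  refine ⟨(c₀ + μ) / 2, by linarith, by linarith, fun a ha h5 => ?_⟩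
  by_contra h6
  have : μ ≤ a := h2 a (mem_insert_of_mem _ ⟨ha, not_le.1 h6⟩)
  linarith

theorem sets_lev {c₀ c : ℝ} (h : c₀ ≤ c) (S : Cfg (KC × ℝ)) (Q : Set ℂ → Prop) (T : Cfg KC) :
    sets (lev c (S.res {p | Q p.1} ∪ T.map fun K => (K, c₀))) =
      {K ∈ sets (lev c S) | Q K} ∪ sets T := by
  ext A
  rw [mem_lev]
  constructor
  · rintro ⟨p, hp | ⟨K, hK, rfl⟩, h2, rfl⟩
    · exact Or.inl ⟨mem_lev.2 ⟨p, hp.1, h2, rfl⟩, hp.2⟩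
    · exact Or.inr ⟨K, hK, rfl⟩
  · rintro (⟨h1, h2⟩ | ⟨K, hK, rfl⟩)
    · obtain ⟨p, h3, h4, rfl⟩ := mem_lev.1 h1
      exact ⟨p, Or.inl ⟨h3, h2⟩, h4, rfl⟩
    · exact ⟨(K, c₀), Or.inr ⟨K, hK, rfl⟩, h, rfl⟩

end RcoreA

open RcoreA in
theorem p_RCORE (hRPCS : S_RPCS) (hRFIT : S_RFIT) (hRLC : S_RLC) (hRDET : S_RDET) (hRCMP : S_RCMP) :
    S_RCORE := by
  intro ν hν R D c₀ c₂ S G ι _ η hR hD hc hT hS hγ hfin hin hη hyp
  choose n g hP hE using fun j => hRPCS (η j) (hη j).1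
    (fun h => (hη j).2.1 (ball_subset_closedBall h)) (hη j).2.2
  set N : ι → Set ℂ := fun j => ⋃ k, range (g j k) with hN
  have hNr : ∀ j, N j ⊆ range (η j).2 ∩ closedBall 0 (7 / 5) := fun j =>
    iUnion_subset fun k => (hE j k).1
  have hF := hRLC ((range fun q : Σ j, Fin (n j) => range (g q.1 q.2)) ∪ Unc (sets (lev c₀ S)))
    ((finite_range _).union ((hfin.image fun p => (p.1 : Set ℂ)).subset fun K hK => by
      obtain ⟨p, h1, -, rfl⟩ := mem_lev.1 hK.1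
      exact ⟨p, ⟨h1, hK.2.2.2⟩, rfl⟩)) (by
    rintro K (⟨q, rfl⟩ | hK)
    · exact ⟨_, rfl⟩
    · obtain ⟨p, h1, -, rfl⟩ := mem_lev.1 hK.1
      exact hγ p h1)
  rw [sUnion_union, sUnion_range, iUnion_sigma] at hF
  obtain ⟨J, U, w, hw, hU, hO⟩ := hRDET _
    ((range fun q : Σ j, Fin (n j) => g q.1 q.2 0) ∪ range fun q : Σ j, Fin (n j) => g q.1 q.2 1)
    R hF.1 (union_subset (iUnion_subset fun j => (hNr j).trans inter_subset_right)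
      (sUnion_subset fun K hK => hK.2.2.1)) ((finite_range _).union (finite_range _)) (by
      rintro _ (⟨q, rfl⟩ | ⟨q, rfl⟩)
      · exact (hE q.1 q.2).2.1
      · exact (hE q.1 q.2).2.2.1) hF.2
  obtain ⟨η₀, hη₀, hsub⟩ := hS w hw
  obtain ⟨m, hm⟩ := exists_nat_one_div_lt (lt_min hη₀ (by norm_num : (0 : ℝ) < 1 / 25))
  have hm1 := (lt_min_iff.1 hm).1
  have hm2 := (lt_min_iff.1 hm).2
  choose T hT1 hT2 using fun i => hyp m (fun j T => Fit (N j ∪ U i) (η j) T) fun j =>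
    ⟨n j, (hRFIT ν hν (U i) (hU i).1 (hU i).2.1 (n j) (η j) (g j) (hη j).1 (hP j)
      (fun k => ⟨fun x hx => ⟨trivial, ((hE j k).1 hx).2⟩, (hE j k).2⟩)
      (fun k => ⟨(hU i).2.2.1 (Or.inl ⟨⟨j, k⟩, rfl⟩), (hU i).2.2.1 (Or.inr ⟨⟨j, k⟩, rfl⟩)⟩)).mono
      fun u hu => ⟨hu.1, fun K hK => ⟨(hu.2.2.1 K hK).1.trans (union_subset
        (((hNr j).trans inter_subset_right).trans (closedBall_subset_ball (by norm_num)))
        ((hU i).2.2.2.trans sdiff_subset)), (hu.2.2.1 K hK).2⟩, hu.2⟩⟩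
  obtain ⟨c', h1, h2, h3⟩ := gap hc (hfin.image Prod.snd)
  refine ⟨c', h1, J, _, hT2, fun c hc' => ?_⟩
  have hbig : ∀ p ∈ S.pts, p.2 ≤ c → 1 / 25 ≤ diam (p.1 : Set ℂ) → p.2 ≤ c₀ := fun p a b d =>
    h3 _ ⟨p, ⟨a, d⟩, rfl⟩ (b.trans hc'.2)
  have hle : sets (lev c S) ⊆ sets (lev c₂ S) := lev_mono (hc'.2.trans h2) S
  have hUnc : Unc (sets (lev c S)) = Unc (sets (lev c₀ S)) := by
    ext K
    refine ⟨fun hK => ⟨?_, hK.2⟩, fun hK => ⟨lev_mono hc'.1 S hK.1, hK.2⟩⟩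
    obtain ⟨p, a, b, rfl⟩ := mem_lev.1 hK.1
    exact mem_lev.2 ⟨p, a, hbig p a b hK.2.2.2, rfl⟩
  simp only [sets_lev hc'.1 S (Keep R (1 / ((m : ℝ) + 1)))]
  refine hRCMP R D w _ _ J U ι η N T hR hD (by positivity) hm2.le (hT.mono hle)
    (fun K hK hd x hx y hy => hsub K (hle hK) (hd.trans hm1) x hx y
      (cluster_mono (by exact fun K' e => ⟨hle e.1, e.2.trans hm1⟩) K hy))
    (fun K hK a b => ?_) (fun j => ⟨(hη j).2.1, hNr j, fun ⟨x, hx⟩ => ?_⟩) (fun i => (hU i).2.2.2)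
    (by rw [hUnc]; exact hO) hT1
  · by_contra e
    obtain ⟨y, hy, hy'⟩ := not_subset.1 e
    obtain ⟨x, hx, hx'⟩ := b
    have hd := dist_le_diam_of_mem (hT.1 K (hle hK)).1.isBounded hy hx
    obtain ⟨p, a1, a2, rfl⟩ := mem_lev.1 hK
    rw [mem_closedBall, not_le] at hy'
    have := dist_triangle y x 0
    rw [mem_closedBall] at hx'
    exact e (hin p a1 (hbig p a1 a2 (by linarith)) a ⟨x, hx, hx'⟩)
  · obtain ⟨k, -⟩ := mem_iUnion.1 hx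
    obtain ⟨z, hz, hz'⟩ := (hE j k).2.2.2
    exact ⟨z, ((hE j k).1 hz).1, hz'⟩

end Pool.Agent.P.MP_d66c6d_pr
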