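import Pool.Agent.P.MP_d66c6d_pr.R.Iface

/-! Step RDET of the carpet project. -/

namespace Pool.Agent.P.MP_d66c6d_pr

open MeasureTheory ProbabilityTheory Set Metric Filter Topology
open scoped ENNReal

namespace RdetA

/-- A path stopped at its first point on a circle. -/
theorem stop (α : Br) {ρ : ℝ} (h0 : ‖α 0‖ ≤ ρ) (h1 : ρ ≤ ‖α 1‖) :
    ∃ β : Br, β 0 = α 0 ∧ ‖β 1‖ = ρ ∧ range β ⊆ range α ∩ closedBall 0 ρ := by
  have hc : Continuous fun t => ‖α t‖ := α.continuous.norm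
  have ivt : ∀ u, ρ ≤ ‖α u‖ → ∃ v ≤ u, ‖α v‖ = ρ := fun u hu => by
    obtain ⟨v, hv, e⟩ := intermediate_value_Icc (show (0 : unitInterval) ≤ u from u.2.1)
      hc.continuousOn ⟨h0, hu⟩
    exact ⟨v, hv.2, e⟩
  obtain ⟨t, ht, hmin⟩ := (isClosed_eq hc continuous_const).isCompact.exists_isLeast
    (show {t | ‖α t‖ = ρ}.Nonempty from (ivt 1 h1).imp fun v hv => hv.2)
  obtain ⟨β, b0, b1, b2⟩ := exists_br_piece α (show (0 : unitInterval) ≤ t from t.2.1)
  refine ⟨β, b0, b1 ▸ ht, ?_⟩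
  rw [b2]
  rintro _ ⟨u, hu, rfl⟩
  refine ⟨mem_range_self u, mem_closedBall_zero_iff.2 (le_of_not_gt fun h => ?_)⟩
  obtain ⟨v, hv, e⟩ := ivt u h.le
  have : u = t := le_antisymm hu.2 ((hmin e).trans hv)
  rw [this, show ‖α t‖ = ρ from ht] at h
  exact lt_irrefl _ h

theorem blobs_mono {w w' : ℝ} {B B' : Set (Set ℂ)} (h : Blobs w B) (hw : w ≤ w') (hB : B' ⊆ B) :
    Blobs w' B' :=
  ⟨h.fin.subset hB, fun K hK => h.cpt K (hB hK), fun K hK => h.conn K (hB hK), h.disj.subset hB,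
    fun K hK x hx y hy => (h.small K (hB hK) x hx y hy).trans hw⟩

theorem far {x p : ℂ} : ‖x‖ - ‖p‖ ≤ dist x p ∧ ‖p‖ - ‖x‖ ≤ dist x p :=
  ⟨by rw [dist_eq_norm]; exact norm_sub_norm_le x p,
    by rw [dist_comm, dist_eq_norm]; exact norm_sub_norm_le p x⟩

end RdetA

open RdetA in
theorem p_RDET (hRJAN : S_RJAN) (hRDTR : S_RDTR) (hRPHA : S_RPHA) (hRPHB : S_RPHB) (hRSEC : S_RSEC) :
    S_RDET := by
  intro N P R hN hN7 hP hP7 hLC
  obtain ⟨s, hs, hA⟩ := hRPHA N P hN hN7 hP hP7 hLC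
  obtain ⟨J, U, w1, hw1, hU, hsec⟩ := hRSEC P s (max R 3 + 1) hP hP7 hs
  have hw : 0 < min (s / 100) (w1 / 2) := lt_min (by linarith [hs.1]) (by linarith)
  have hws : min (s / 100) (w1 / 2) ≤ s / 100 := min_le_left _ _
  have hww : min (s / 100) (w1 / 2) ≤ w1 / 2 := min_le_right _ _
  have hR3 : (3 : ℝ) ≤ max R 3 := le_max_right _ _
  refine ⟨J, U, _, hw, fun i => ⟨(hU i).1, (hU i).2.1, (hU i).2.2.1, (hU i).2.2.2.1.trans
    (sdiff_subset_sdiff_right (closedBall_subset_closedBall (by norm_num)))⟩, ?_⟩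
  generalize min (s / 100) (w1 / 2) = w at hw hws hww
  intro B M hB hM hM27 γ h0 h1 hdis
  rw [mem_ball_zero_iff] at h0 h1
  obtain ⟨g, g0, g1, g2⟩ := stop γ (ρ := 31 / 20) (by linarith) (not_lt.1 h1)
  have gd : ∀ z ∈ range g, z ∉ N ∪ M ∪ ⋃₀ B := fun z hz => disjoint_left.1 hdis (g2 hz)
  have hA' := hA B (M ∪ closedBall 0 (13 / 10)) (blobs_mono hB hws Subset.rfl)
    (hM.union (isCompact_closedBall _ _))
    (union_subset hM27 (closedBall_subset_closedBall (by norm_num)))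
  obtain ⟨σ, s0, s1, s2⟩ := joinedIn_iff_br.1 (hRPHB _ g (13 / 10) (138 / 100) (by norm_num)
    (by rw [mem_closedBall_zero_iff, g0]; exact h0.le)
    (by rw [mem_closedBall_zero_iff, g1]; norm_num) fun a b hab hd ha hb => by
      refine hA' _ _ (fun p hp => ?_) ?_
      · have h7 := mem_sphere_zero_iff_norm.1 (hP7 hp)
        rw [mem_closedBall_zero_iff] at ha hb
        refine ⟨by linarith [(far (x := g a) (p := p)).2], ?_⟩
        rcases hb with hb | rfl
        · linarith [(far (x := g b) (p := p)).2]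
        · linarith [(far (x := g 1) (p := p)).1]
      · obtain ⟨β, b0, b1, b2⟩ := exists_br_piece g hab
        refine joinedIn_iff_br.2 ⟨β, b0, b1, fun z hz => ?_⟩
        rw [b2] at hz
        have h2 := gd z (image_subset_range _ _ hz)
        have h3 := disjoint_left.1 hd hz
        simp only [mem_union, mem_compl_iff] at h2 ⊢
        tauto)
  obtain ⟨σ1, t0, t1, t2⟩ := stop σ (ρ := 7 / 5 + s / 4) (by rw [s0, g0]; linarith [hs.1])
    (by rw [s1, g1]; linarith [hs.2])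
  have k1 : ∀ z ∈ range σ1, z ∉ N ∪ M ∪ ⋃₀ B := fun z hz => by
    rcases s2 (t2 hz).1 with h | h
    · exact gd z h.1
    · simp only [mem_union, mem_compl_iff] at h ⊢
      tauto
  have k2 : ∀ i, ∀ z ∈ range σ1, z ∉ U i := fun i z hz hi => by
    rcases s2 (t2 hz).1 with h | h
    · exact ((hU i).2.2.2.1 hi).2 (closedBall_subset_closedBall (by norm_num) h.2)
    · exact h (Or.inr ((hU i).2.2.2.2 ⟨hi, (t2 hz).2⟩))
  have k3 : range σ1 ∩ closedBall 0 (13 / 10) ⊆ range γ := fun z hz => by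
    rcases s2 (t2 hz.1).1 with h | h
    · exact (g2 h.1).1
    · exact absurd (Or.inl (Or.inl (Or.inr (Or.inr hz.2)))) h
  obtain ⟨i, π, p0, p1, p2⟩ := hsec (σ1 1) (mem_sphere_zero_iff_norm.2 t1) fun p hp => by
    rcases s2 (t2 (mem_range_self 1)).1 with h | h
    · have := mem_closedBall_zero_iff.1 h.2
      linarith [hs.1]
    · exact le_of_not_gt fun e => h (Or.inr (mem_biUnion hp (mem_closedBall.2 e.le)))
  rw [mem_ball_zero_iff, not_lt] at p1
  obtain ⟨τ, u0, u1, u2⟩ := joinedIn_iff_br.1 (hRDTR w w1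
    {K ∈ B | (K ∩ closedBall 0 (max R 3)).Nonempty} π (blobs_mono hB le_rfl (sep_subset _ _))
    hw.le (by linarith) fun K ⟨hK, k, hk, hk'⟩ => by
      rw [mem_closedBall_zero_iff] at hk'
      have hsub : (closedBall k w)ᶜ ⊆ Kᶜ :=
        compl_subset_compl.2 fun z hz => hB.small K hK z hz k hk
      have h2 : π 1 ∉ closedBall k w := fun e => by
        linarith [(far (x := π 1) (p := k)).1, mem_closedBall.1 e, hs.2]
      by_cases hy : π 0 ∈ closedBall k w
      · have h3 : σ1 0 ∉ closedBall k w := fun e => by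
          have h4 := dist_triangle_right (π 0) (σ1 0) k
          have h5 := (far (x := π 0) (p := σ1 0)).1
          rw [p0, t1, t0, s0, g0] at h5
          rw [p0, t0, s0, g0] at h4
          rw [mem_closedBall, p0] at hy
          rw [mem_closedBall, t0, s0, g0] at e
          linarith [hs.1, hs.2]
        have h6 : JoinedIn Kᶜ (σ1 0) (π 0) := joinedIn_iff_br.2 ⟨σ1, rfl, p0.symm,
          fun z hz e => k1 z hz (Or.inr ⟨K, hK, e⟩)⟩
        exact h6.symm.trans ((hRJAN.2.2 k _ _ w h3 h2).mono hsub)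
      · exact (hRJAN.2.2 k _ _ w hy h2).mono hsub)
  obtain ⟨τ1, v0, v1, v2⟩ := stop τ (ρ := max R 3) (by rw [u0, p0, t1]; linarith [hs.2])
    (by rw [u1]; linarith)
  have k4 : ∀ z ∈ range τ1, z ∉ U i ∧ z ∉ closedBall (0 : ℂ) (7 / 5) ∧ z ∉ ⋃₀ B := fun z hz => by
    have h2 := u2 (v2 hz).1
    have h3 := disjoint_left.1 p2 h2.1
    exact ⟨fun e => h3 (Or.inl e), fun e => h3 (Or.inr e),
      fun ⟨K, hK, e⟩ => h2.2 ⟨K, ⟨hK, z, e, (v2 hz).2⟩, e⟩⟩
  obtain ⟨γ', c0, c1, c2⟩ := exists_br_trans (α := σ1) (β := τ1) (by rw [v0, u0, p0])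
  refine ⟨i, γ', by rw [c0, t0, s0, g0], ?_, disjoint_left.2 fun z hz e => ?_, fun z hz => ?_⟩
  · rw [mem_ball_zero_iff, c1, v1, not_lt]
    exact le_max_left _ _
  · rw [c2] at hz
    rcases hz with hz | hz
    · have h2 := k1 z hz
      have h3 := k2 i z hz
      simp only [mem_union] at h2 e
      tauto
    · obtain ⟨h2, h3, h4⟩ := k4 z hz
      rcases e with ((e | e) | e) | e
      · exact h3 (hN7 e)
      · exact h3 (closedBall_subset_closedBall (by norm_num) (hM27 e))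
      · exact h2 e
      · exact h4 e
  · rw [c2] at hz
    rcases hz.1 with h | h
    · exact k3 ⟨h, hz.2⟩
    · exact absurd (closedBall_subset_closedBall (by norm_num) hz.2) (k4 z h).2.1

end Pool.Agent.P.MP_d66c6d_pr
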