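import Pool.Agent.P.MP_d66c6d_pr.R.Iface

/-! Step RDTR of the carpet project. -/

namespace Pool.Agent.P.MP_d66c6d_pr

open MeasureTheory ProbabilityTheory Set Metric Filter Topology
open scoped ENNReal

theorem p_RDTR (hRJAN : S_RJAN) :
    S_RDTR := by
  intro w r B π hB hw hr hJ
  have hr0 : 0 < r := hw.trans_lt hr
  have hP : IsCompact (range π) := isCompact_range π.continuous
  set F := cthickening (r + 1) (range π) \ thickening r (range π) with hF
  have hFc : IsCompact F := hP.cthickening.diff isOpen_thickening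
  have hin : ∀ t, π t ∈ thickening r (range π) := fun t =>
    self_subset_thickening hr0 _ ⟨t, rfl⟩
  have h1 := hRJAN.1 (F ∪ ⋃₀ {K ∈ B | (K ∩ F).Nonempty}) {K ∈ B | ¬ (K ∩ F).Nonempty} (π 0) (π 1)
    (hFc.union ((hB.fin.subset (sep_subset _ _)).isCompact_sUnion fun K hK => hB.cpt K hK.1))
    (hB.fin.subset (sep_subset _ _)) (fun K hK => hB.cpt K hK.1)
    (hB.disj.subset (sep_subset _ _)) ?_ ?_ (fun K hK => hJ K hK.1)
  · obtain ⟨γ, hγ⟩ := h1
    have h2 : range γ ⊆ thickening r (range π) := by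
      refine (isPreconnected_range γ.continuous).subset_left_of_subset_union isOpen_thickening
        (isClosed_cthickening (δ := r + 1) (E := range π)).isOpen_compl
        (disjoint_compl_right_iff_subset.2
          (thickening_subset_cthickening_of_le (by linarith) _)) ?_
        ⟨π 0, ⟨0, γ.source⟩, hin 0⟩
      rintro _ ⟨t, rfl⟩
      by_contra h
      rw [mem_union, not_or, mem_compl_iff, not_not] at h
      exact hγ t (Or.inl (Or.inl ⟨h.2, h.1⟩))
    refine ⟨γ, fun t => ⟨h2 ⟨t, rfl⟩, ?_⟩⟩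
    rintro ⟨K, hK, ht⟩
    by_cases h : (K ∩ F).Nonempty
    · exact hγ t (Or.inl (Or.inr ⟨K, ⟨hK, h⟩, ht⟩))
    · exact hγ t (Or.inr ⟨K, ⟨hK, h⟩, ht⟩)
  · intro K hK
    have e : (F ∪ ⋃₀ {K ∈ B | (K ∩ F).Nonempty}) ∩ K = ∅ := by
      refine eq_empty_of_forall_notMem ?_
      rintro x ⟨hx | ⟨L, hL, hx⟩, hxK⟩
      · exact hK.2 ⟨x, hxK, hx⟩
      · have hne : L ≠ K := by
          rintro rfl
          exact hK.2 hL.2
        exact disjoint_left.1 (hB.disj hL.1 hK.1 hne) hx hxK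
    rw [e]
    exact isPreconnected_empty
  · refine ⟨⟨π, rfl, rfl⟩, fun t => ?_⟩
    rintro (h | ⟨K, ⟨hK, y, hy, hyF⟩, ht⟩)
    · exact h.2 (hin t)
    · exact hyF.2 (mem_thickening_iff.2 ⟨π t, ⟨t, rfl⟩, (hB.small K hK y hy _ ht).trans_lt hr⟩)

end Pool.Agent.P.MP_d66c6d_pr
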