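import Pool.Agent.P.MP_d66c6d_pr.R.Iface
import Pool.Agent.P.MP_d66c6d_pr.U.Iface

/-! Step RFIT of the carpet project. -/

namespace Pool.Agent.P.MP_d66c6d_pr

open MeasureTheory ProbabilityTheory Set Metric Filter Topology
open scoped ENNReal

namespace RfitA

theorem piece (hEV : S_EV) (p : TP) {a a' : ℝ} (ha : 0 < a) (ha' : 0 < a') (h : a + a' < p.1) :
    range (hd a' (tl a p)).2 = ev p '' Icc a (a + a') ∧ (hd a' (tl a p)).2 0 = ev p a ∧
      (hd a' (tl a p)).2 1 = ev p (a + a') := by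
  have h1 := (hEV.2.1 p a ha (by linarith)).2.1
  have h2 := hEV.2.1 (tl a p) a' ha' (by change a' < p.1 - a; linarith)
  have h3 := hEV.1 (hd a' (tl a p)) ha'
  have h4 : ∀ s ∈ Icc 0 a', ev (tl a p) s = ev p (a + s) := fun s hs =>
    h1 s ⟨hs.1, by linarith [hs.2]⟩
  refine ⟨?_, ?_, ?_⟩
  · rw [h2.2.2.1, image_congr h4, ← image_image (ev p) (fun s => a + s), image_const_add_Icc,
      add_zero]
  · rw [← h3.1, h2.1 0 ⟨le_rfl, ha'.le⟩, h4 0 ⟨le_rfl, ha'.le⟩, add_zero]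
  · rw [← h3.2.1]
    exact (h2.1 a' ⟨ha'.le, le_rfl⟩).trans (h4 a' ⟨ha'.le, le_rfl⟩)

theorem pick {u v h : ℝ} (hh : 0 < h) {Q : ℝ × ℝ → Prop}
    (hQ : ∀ᵐ x ∂(volume : Measure ℝ).prod (volume : Measure ℝ), Q x) :
    ∃ x : ℝ × ℝ, (u < x.1 ∧ x.1 < u + h ∧ v - h < x.1 + x.2 ∧ x.1 + x.2 < v) ∧ Q x := by
  have hO : IsOpen {x : ℝ × ℝ | u < x.1 ∧ x.1 < u + h ∧ v - h < x.1 + x.2 ∧ x.1 + x.2 < v} :=
    (isOpen_lt continuous_const continuous_fst).inter
      ((isOpen_lt continuous_fst continuous_const).inter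
        ((isOpen_lt continuous_const (continuous_fst.add continuous_snd)).inter
          (isOpen_lt (continuous_fst.add continuous_snd) continuous_const)))
  obtain ⟨x, h1, h2⟩ := (Measure.dense_of_ae hQ).inter_open_nonempty _ hO
    ⟨(u + h / 2, v - u - h), by
      refine ⟨?_, ?_, ?_, ?_⟩ <;> dsimp only <;> linarith⟩
  exact ⟨x, h1, h2⟩

end RfitA

theorem p_RFIT (hEV : S_EV) (hRCLO : S_RCLO) :
    S_RFIT := by
  intro ν hν U hU hUc n
  have := hν.gauss
  induction n with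
  | zero =>
    intro p g _ hP _ _
    have hne : NeBot (ae (xiP ν 0)) := ae_neBot.2 (by
      intro h0
      have h1 : xiP ν 0 univ = 1 := by
        rw [xiP, Measure.pi_univ]
        exact Fin.prod_univ_zero _
      rw [h0] at h1
      exact zero_ne_one h1)
    refine Eventually.frequently (Eventually.of_forall fun u => ⟨trivial, ?_, ?_, ?_⟩)
    · simp [newT]
    · simp [newT]
    · rw [Set.disjoint_iff_inter_eq_empty.1 hP]
      exact empty_subset _
  | succ n ih =>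
    intro p g hp hP hE hg hne
    obtain ⟨u, v, hu, huv, hv, hd0, hr, e0, e1, ⟨z, hz, hz'⟩, hrest⟩ := hP
    set V := U \ closedBall (0 : ℂ) (27 / 20) with hV
    have hVo : IsOpen (ev p ⁻¹' V) := (hU.sdiff isClosed_closedBall).preimage (continuous_ev p)
    have hs : ∀ w ∈ sphere (0 : ℂ) (7 / 5), w ∉ closedBall (0 : ℂ) (27 / 20) := fun w hw h => by
      rw [mem_sphere] at hw
      rw [mem_closedBall, hw] at h
      norm_num at h
    obtain ⟨δ, hδ, b1⟩ := Metric.isOpen_iff.1 hVo u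
      (show ev p u ∈ V from e0 ▸ ⟨(hg 0).1, hs _ (hE 0).2.1⟩)
    obtain ⟨δ', hδ', b2⟩ := Metric.isOpen_iff.1 hVo v
      (show ev p v ∈ V from e1 ▸ ⟨(hg 0).2, hs _ (hE 0).2.2.1⟩)
    have hin : ∀ w ∈ V, w ∉ closedBall (0 : ℂ) (13 / 10) := fun w hw h =>
      hw.2 (closedBall_subset_closedBall (by norm_num) h)
    obtain ⟨⟨a, a'⟩, ⟨a1, a2, a3, a4⟩, hq⟩ := RfitA.pick (u := u) (v := v)
      (show 0 < min (min δ δ') ((v - u) / 2) from lt_min (lt_min hδ hδ') (by linarith))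
      (Measure.ae_ae_of_ae_prod (ae_cons hne))
    dsimp only at a1 a2 a3 a4
    have m1 : min (min δ δ') ((v - u) / 2) ≤ δ := (min_le_left _ _).trans (min_le_left _ _)
    have m2 : min (min δ δ') ((v - u) / 2) ≤ δ' := (min_le_left _ _).trans (min_le_right _ _)
    have m3 : min (min δ δ') ((v - u) / 2) ≤ (v - u) / 2 := min_le_right _ _
    have c1 : ∀ s, u ≤ s → s ≤ a → ev p s ∈ V := fun s h1 h2 =>
      b1 (by rw [mem_ball, Real.dist_eq, abs_lt]; constructor <;> linarith)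
    have c2 : ∀ s, a + a' ≤ s → s ≤ v → ev p s ∈ V := fun s h1 h2 =>
      b2 (by rw [mem_ball, Real.dist_eq, abs_lt]; constructor <;> linarith)
    have ha : 0 < a := by linarith
    have ha' : 0 < a' := by linarith
    have hb : a + a' < p.1 := by linarith
    obtain ⟨r1, r2, r3⟩ := RfitA.piece hEV p ha ha' hb
    obtain ⟨q, ⟨q1, q2⟩, hq'⟩ := ((hRCLO ν hν U hU hUc _ (r3 ▸ (c2 _ le_rfl a4.le).1) _
      (r2 ▸ (c1 _ a1.le le_rfl).1)).and_eventually hq).exists
    have hP' : Pcs n (tl (a + a') p) (Fin.tail g) := hrest _ (by linarith) a4.le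
      (Set.disjoint_left.2 (by
        rintro _ ⟨s, hs', rfl⟩
        exact hin _ (c2 s hs'.1 hs'.2)))
    obtain ⟨w, ⟨w1, f1, f2, f3⟩, hw⟩ := ((ih (tl (a + a') p) (Fin.tail g)
      (by change 0 < p.1 - (a + a'); linarith) hP' (fun j => hE j.succ)
      (fun j => hg j.succ)).and_eventually hq').exists
    have er : rest p ((a, a'), q) = tl (a + a') p := tl_tl p ha.le ha'.le hb
    have ec : (clo p ((a, a'), q) : Set ℂ) = ev p '' Icc a (a + a') ∪
        range (seg ((hd a' (tl a p)).2 1) ((hd a' (tl a p)).2 0) q.1 q.2) := by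
      rw [← r1]
      rfl
    refine hw ?_
    simp only [okC, newT, Fin.cons_zero, Fin.tail_cons, er]
    refine ⟨⟨⟨ha, ha', hb, q1⟩, w1⟩, f1.insert _, ?_, ?_⟩
    · rintro K (rfl | hK)
      · refine ⟨?_, ?_⟩
        · rw [ec]
          refine union_subset_union ((image_mono (Icc_subset_Icc a1.le a4.le)).trans ?_) q2
          rw [← hr]
          exact subset_iUnion (fun j => range (g j)) 0
        · rw [hr] at hz
          obtain ⟨s, hs', rfl⟩ := hz
          have s1 : a ≤ s := le_of_not_ge fun h => hin _ (c1 s hs'.1 h) hz'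
          have s2 : s ≤ a + a' := le_of_not_ge fun h => hin _ (c2 s h hs'.2) hz'
          have d1 := dist_le_diam_of_mem (clo p ((a, a'), q)).isCompact.isBounded
            (x := ev p a) (y := ev p s) (ec ▸ Or.inl ⟨a, ⟨le_rfl, by linarith⟩, rfl⟩)
            (ec ▸ Or.inl ⟨s, ⟨s1, s2⟩, rfl⟩)
          have d2 := (c1 a a1.le le_rfl).2
          rw [mem_closedBall, not_le] at d2
          rw [mem_closedBall] at hz'
          linarith [dist_triangle (ev p a) (ev p s) 0]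
      · exact ⟨(f2 K hK).1.trans (union_subset_union_left _ (iUnion_subset fun j =>
          subset_iUnion (fun j => range (g j)) j.succ)), (f2 K hK).2⟩
    · rintro y ⟨hy, hy'⟩
      rw [(hEV.1 p hp).2.2.1] at hy
      obtain ⟨s, hs', rfl⟩ := hy
      have s1 : u ≤ s := le_of_not_ge fun h =>
        Set.disjoint_left.1 hd0 ⟨s, ⟨hs'.1, h⟩, rfl⟩ hy'
      have s2 : a ≤ s := le_of_not_ge fun h => hin _ (c1 s s1 h) hy'
      rcases le_total s (a + a') with s3 | s3
      · exact ⟨_, ⟨_, Or.inl rfl, ec⟩, Or.inl ⟨s, ⟨s2, s3⟩, rfl⟩⟩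
      · obtain ⟨_, ⟨K, hK, rfl⟩, hK'⟩ := f3 (show ev p s ∈ _ from ⟨by
          rw [(hEV.2.1 p (a + a') (by linarith) hb).2.2.2.1]
          exact ⟨s, ⟨s3, hs'.2⟩, rfl⟩, hy'⟩)
        exact ⟨_, ⟨K, Or.inr hK, rfl⟩, hK'⟩

end Pool.Agent.P.MP_d66c6d_pr
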