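import Pool.Agent.P.MP_d66c6d_pr.R.Iface
import Pool.Agent.P.MP_d66c6d_pr.F.Iface
import Pool.Agent.P.MP_d66c6d_pr.U.Iface2

/-! Step RINS of the carpet project. -/

namespace Pool.Agent.P.MP_d66c6d_pr

open MeasureTheory ProbabilityTheory Set Metric Filter Topology
open scoped ENNReal

namespace RinsA

variable {E : Type} [MeasurableSpace E]

/-- The configurations that enter `G` after the insertion of a point. -/
def up (m' : Measure E) (G : Set (Cfg E)) : Set (Cfg E) := {S | m' {x | insert x S ∈ G} ≠ 0}

theorem meas_up (m' : Measure E) [SFinite m'] {G : Set (Cfg E)} (hG : MeasurableSet G) :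
    MeasurableSet (up m' G) :=
  (measurable_measure_prodMk_left (ν := m') ((by fun_prop :
    Measurable fun p : Cfg E × E => insert p.2 p.1) hG)) (measurableSet_singleton 0).compl

theorem null_up (hPPA : S_PPA) (hPPO : S_PPO) {m m' : Measure E} [SFinite m] [SFinite m']
    {B : Set E} (hB : MeasurableSet B) (hf : m B ≠ ∞) (hm : m' ≪ m.restrict B)
    {G : Set (Cfg E)} (hG : MeasurableSet G) (h0 : PP m G = 0) : PP m (up m' G) = 0 := by
  have hu : Measurable fun p : Cfg E × Cfg E => p.1 ∪ p.2 := by fun_prop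
  have hi : Measurable fun p : Cfg E × E => insert p.2 p.1 := by fun_prop
  have e := (hPPO E (m.restrict Bᶜ) inferInstance).1 (m.restrict B) inferInstance
  rw [add_comm, Measure.restrict_add_restrict_compl hB] at e
  rw [← e, Measure.map_apply hu hG, Measure.measure_prod_null (hu hG)] at h0
  rw [← e, Measure.map_apply hu (meas_up m' hG), Measure.measure_prod_null (hu (meas_up m' hG))]
  filter_upwards [h0] with T hT
  have hG' : MeasurableSet {S : Cfg E | T ∪ S ∈ G} :=
    (by fun_prop : Measurable fun S : Cfg E => T ∪ S) hG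
  have h1 := (hPPA E (m.restrict B) m').2.1 (isFiniteMeasure_restrict.2 hf) inferInstance hm
    (s := {S : Cfg E | T ∪ S ∈ G}) hT
  rw [Measure.map_apply hi hG', Measure.measure_prod_null (hi hG')] at h1
  refine measure_eq_zero_iff_ae_notMem.2 ?_
  filter_upwards [h1] with S hS h2
  refine h2 ?_
  simp only [← Cfg.union_insert]
  exact hS

end RinsA

open RinsA in
theorem p_RINS (hPPA : S_PPA) (hPPO : S_PPO) (hRJ : S_RJ) :
    S_RINS := by
  intro E _ m _
  refine ⟨fun B m' hB hf _ hm G hG h0 => ?_, fun A hA hf => ?_⟩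
  · have h : ∀ k, MeasurableSet ((up m')^[k] G) ∧ PP m ((up m')^[k] G) = 0 := fun k => by
      induction k with
      | zero => exact ⟨hG, h0⟩
      | succ k ih =>
        rw [Function.iterate_succ_apply']
        exact ⟨meas_up m' ih.1, null_up hPPA hPPO hB hf hm ih.1 ih.2⟩
    refine ⟨⋃ k, (up m')^[k] G, subset_iUnion (fun k => (up m')^[k] G) 0,
      ⟨MeasurableSet.iUnion fun k => (h k).1, fun S hS => ?_⟩, measure_iUnion_null fun k => (h k).2⟩
    simp only [mem_iUnion, not_exists] at hS ⊢
    refine ae_all_iff.2 fun k => ?_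
    have h1 := hS (k + 1)
    rw [Function.iterate_succ_apply'] at h1
    exact measure_eq_zero_iff_ae_notMem.1 (not_not.1 h1)
  · refine Measure.AbsolutelyContinuous.mk fun G hG h0 => ?_
    have h := (hPPA E (m.restrict A) (m.restrict Aᶜ)).2.2.1 inferInstance
      (isFiniteMeasure_restrict.2 hf) G hG
    rw [Measure.restrict_add_restrict_compl hA, h0, nonpos_iff_eq_zero, mul_eq_zero,
      Measure.restrict_apply_univ, ← ENNReal.ofReal_toReal hf,
      en_ofReal ENNReal.toReal_nonneg] at h
    exact h.resolve_left (ENNReal.ofReal_pos.2 (Real.exp_pos _)).ne'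

end Pool.Agent.P.MP_d66c6d_pr
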