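import Pool.Agent.P.MP_d66c6d_pr.R.Iface
import Pool.Agent.P.MP_d66c6d_pr.T.Iface

/-! Step RJAN of the carpet project. -/

namespace Pool.Agent.P.MP_d66c6d_pr

open MeasureTheory ProbabilityTheory Set Metric Filter Topology
open scoped ENNReal

namespace RjanA

theorem jan (hEIL : S_EIL) (C : Set ℂ) (D : Set (Set ℂ)) (x y : ℂ) (hC : IsCompact C)
    (hD : D.Finite) (hK : ∀ K ∈ D, IsCompact K) (hd : D.PairwiseDisjoint id)
    (hc : ∀ K ∈ D, IsPreconnected (C ∩ K)) (hj : JoinedIn Cᶜ x y)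
    (hk : ∀ K ∈ D, JoinedIn Kᶜ x y) : JoinedIn (C ∪ ⋃₀ D)ᶜ x y := by
  induction D, hD using Set.Finite.induction_on with
  | empty => simpa using hj
  | @insert K D hn hD ih =>
    have h1 := ih (fun L hL => hK L (Or.inr hL)) (hd.subset (subset_insert _ _))
      (fun L hL => hc L (Or.inr hL)) fun L hL => hk L (Or.inr hL)
    have e : (C ∪ ⋃₀ D) ∩ K = C ∩ K := by
      refine Subset.antisymm ?_ (inter_subset_inter_left _ subset_union_left)
      rintro z ⟨hz | ⟨L, hL, hz⟩, hzK⟩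
      · exact ⟨hz, hzK⟩
      · have hne : L ≠ K := fun h => hn (h ▸ hL)
        exact absurd hzK (disjoint_left.1 (hd (Or.inr hL) (Or.inl rfl) hne) hz)
    have h2 := hEIL.2.2 (C ∪ ⋃₀ D) K (hC.union (hD.isCompact_sUnion fun L hL => hK L (Or.inr hL)))
      (hK K (Or.inl rfl)) (e ▸ hc K (Or.inl rfl)) x y h1 (hk K (Or.inl rfl))
    rwa [sUnion_insert, union_comm K, ← union_assoc]

theorem cluster_eq {T : Set (Set ℂ)} {K K' : Set ℂ} (hK : K ∈ T) (h : Lk T K K') :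
    cluster T K' = cluster T K :=
  Subset.antisymm (fun _ ⟨L, hL, hz⟩ => ⟨L, h.trans hL, hz⟩)
    fun _ ⟨L, hL, hz⟩ => ⟨L, (h.symm hK).trans hL, hz⟩

theorem pre {T : Set (Set ℂ)} (hT : ∀ K ∈ T, IsPreconnected K) {K : Set ℂ} (hK : K ∈ T) :
    IsPreconnected (cluster T K) := by
  rcases (cluster T K).eq_empty_or_nonempty with h | ⟨z, L, hL, hz⟩
  · exact h ▸ isPreconnected_empty
  · exact cluster_eq hK hL ▸ isPreconnected_cluster hT (Lk.mem hK hL) ⟨z, hz⟩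

theorem blobs (T : Set (Set ℂ)) (w : ℝ) (hT : T.Finite)
    (hK : ∀ K ∈ T, IsCompact K ∧ IsPreconnected K)
    (hw : ∀ K ∈ T, ∀ x ∈ K, ∀ y ∈ cluster T K, dist x y ≤ w) :
    ∃ B, Blobs w B ∧ ⋃₀ B = ⋃₀ T := by
  refine ⟨cluster T '' T, ⟨hT.image _, ?_, ?_, ?_, ?_⟩, Subset.antisymm ?_ ?_⟩
  · rintro _ ⟨K, h, rfl⟩
    exact (hT.subset fun L hL => Lk.mem h hL).isCompact_sUnion fun L hL => (hK L (Lk.mem h hL)).1
  · rintro _ ⟨K, h, rfl⟩
    exact pre (fun L hL => (hK L hL).2) h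
  · rintro _ ⟨K, h, rfl⟩ _ ⟨K', h', rfl⟩ hne
    refine disjoint_left.2 ?_
    rintro z ⟨L, hL, hz⟩ ⟨L', hL', hz'⟩
    have h1 : Lk T K L' := Relation.ReflTransGen.tail hL ⟨Lk.mem h' hL', z, hz, hz'⟩
    exact hne ((cluster_eq h h1).symm.trans (cluster_eq h' hL'))
  · rintro _ ⟨K, h, rfl⟩ x ⟨L, hL, hx⟩ y hy
    exact hw L (Lk.mem h hL) x hx y ((cluster_eq h hL).symm ▸ hy)
  · rintro z ⟨_, ⟨K, h, rfl⟩, L, hL, hz⟩
    exact ⟨L, Lk.mem h hL, hz⟩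
  · rintro z ⟨K, h, hz⟩
    exact ⟨_, ⟨K, h, rfl⟩, K, .refl, hz⟩

theorem out (c x y : ℂ) (r : ℝ) (hx : x ∉ closedBall c r) (hy : y ∉ closedBall c r) :
    JoinedIn (closedBall c r)ᶜ x y := by
  rcases lt_or_ge r 0 with hr | hr
  · rw [closedBall_eq_empty.2 hr, compl_empty]
    exact isPathConnected_univ.joinedIn x trivial y trivial
  have h := (((convex_Ioi r).isPathConnected nonempty_Ioi).prod (isPathConnected_sphere (E := ℂ)
    (by rw [Complex.rank_real_complex]; exact Nat.one_lt_ofNat) 0 zero_le_one)).image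
    (f := fun p : ℝ × ℂ => c + p.1 • p.2) (by fun_prop)
  have e : (fun p : ℝ × ℂ => c + p.1 • p.2) '' Ioi r ×ˢ sphere (0 : ℂ) 1 = (closedBall c r)ᶜ := by
    refine Set.ext fun z => ⟨?_, fun hz => ?_⟩
    · rintro ⟨⟨t, u⟩, ⟨ht, hu⟩, rfl⟩
      have hu' : ‖u‖ = 1 := mem_sphere_zero_iff_norm.1 hu
      have ht' : r < t := ht
      change ¬ dist (c + t • u) c ≤ r
      rw [dist_eq_norm, add_sub_cancel_left, norm_smul, hu', mul_one,
        Real.norm_of_nonneg (hr.trans ht'.le)]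
      exact not_le.2 ht'
    · have hz1 : r < ‖z - c‖ := by
        rw [← dist_eq_norm]
        exact not_le.1 hz
      have hz0 := (hr.trans_lt hz1).ne'
      refine ⟨(‖z - c‖, ‖z - c‖⁻¹ • (z - c)), ⟨hz1, mem_sphere_zero_iff_norm.2 ?_⟩, ?_⟩
      · change ‖‖z - c‖⁻¹ • (z - c)‖ = 1
        rw [norm_smul, norm_inv, norm_norm, inv_mul_cancel₀ hz0]
      · change c + ‖z - c‖ • ‖z - c‖⁻¹ • (z - c) = z
        rw [smul_inv_smul₀ hz0, add_sub_cancel]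
  exact (e ▸ h).joinedIn x hx y hy

end RjanA

theorem p_RJAN (hEIL : S_EIL) :
    S_RJAN :=
  ⟨RjanA.jan hEIL, RjanA.blobs, RjanA.out⟩

end Pool.Agent.P.MP_d66c6d_pr
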