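import Pool.Agent.P.MP_d66c6d_pr.R.Iface

/-! Step RLC of the carpet project. -/

namespace Pool.Agent.P.MP_d66c6d_pr

open MeasureTheory ProbabilityTheory Set Metric Filter Topology
open scoped ENNReal

namespace RlcA

/-- The strengthened form of local connectedness at a point. -/
def LC2 (N : Set ℂ) (p : ℂ) : Prop :=
  ∀ η > (0 : ℝ), ∃ s > (0 : ℝ), ∃ κ : Set ℂ, IsCompact κ ∧ IsPreconnected κ ∧ (κ = ∅ ∨ p ∈ κ) ∧
    κ ⊆ N ∩ closedBall p η ∧ N ∩ closedBall p s ⊆ κ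

theorem lc_empty (p : ℂ) : LC2 ∅ p := fun _ _ =>
  ⟨1, one_pos, ∅, isCompact_empty, isPreconnected_empty, Or.inl rfl, empty_subset _, by simp⟩

theorem lc_union {N M : Set ℂ} {p : ℂ} (h1 : LC2 N p) (h2 : LC2 M p) : LC2 (N ∪ M) p := by
  intro η hη
  obtain ⟨s, hs, κ, c1, p1, e1, a1, b1⟩ := h1 η hη
  obtain ⟨s', hs', κ', c2, p2, e2, a2, b2⟩ := h2 η hη
  refine ⟨min s s', lt_min hs hs', κ ∪ κ', c1.union c2, ?_, ?_, ?_, ?_⟩
  · rcases e1 with e1 | e1
    · rw [e1, empty_union]; exact p2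
    · rcases e2 with e2 | e2
      · rw [e2, union_empty]; exact p1
      · exact IsPreconnected.union p e1 e2 p1 p2
  · rcases e1 with e1 | e1
    · rcases e2 with e2 | e2
      · left; rw [e1, e2, union_empty]
      · right; exact Or.inr e2
    · right; exact Or.inl e1
  · rintro x (hx | hx)
    · exact ⟨Or.inl (a1 hx).1, (a1 hx).2⟩
    · exact ⟨Or.inr (a2 hx).1, (a2 hx).2⟩
  · rintro x ⟨hx | hx, hb⟩
    · exact Or.inl (b1 ⟨hx, closedBall_subset_closedBall (min_le_left _ _) hb⟩)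
    · exact Or.inr (b2 ⟨hx, closedBall_subset_closedBall (min_le_right _ _) hb⟩)

theorem lc_fun (f : ℝ → ℂ) (hf : Continuous f) (hr : range f ⊆ f '' Icc 0 1) (p : ℂ) :
    LC2 (f '' Icc 0 1) p := by
  intro η hη
  have hN : IsCompact (f '' Icc 0 1) := isCompact_Icc.image hf
  have h1 : ∀ t : ℝ, ∃ d > (0 : ℝ), ∀ u, dist u t < d → dist (f u) (f t) < η := fun t =>
    Metric.continuous_iff.1 hf t η hη
  choose d hd0 hd using h1
  set U : Set ℝ := ⋃ t ∈ f ⁻¹' {p}, ball t (d t) with hU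
  have hUo : IsOpen U := isOpen_biUnion fun t _ => isOpen_ball
  have hC : IsCompact (f '' (Icc 0 1 \ U)) := (isCompact_Icc.diff hUo).image hf
  have hp : p ∈ (f '' (Icc 0 1 \ U))ᶜ := by
    rintro ⟨t, ht, e⟩
    exact ht.2 (mem_biUnion (show t ∈ f ⁻¹' {p} from e) (mem_ball_self (hd0 t)))
  obtain ⟨s, hs, hball⟩ := Metric.isOpen_iff.1 hC.isClosed.isOpen_compl p hp
  have hsub : f '' U ⊆ f '' Icc 0 1 ∩ closedBall p η := by
    rintro _ ⟨u, hu, rfl⟩
    refine ⟨hr ⟨u, rfl⟩, ?_⟩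
    obtain ⟨t, ht, hut⟩ := mem_iUnion₂.1 hu
    have e : f t = p := ht
    have := hd t u hut
    rw [e] at this
    exact this.le
  have hcl : IsClosed (f '' Icc 0 1 ∩ closedBall p η) := hN.isClosed.inter isClosed_closedBall
  have hsub2 : closure (f '' U) ⊆ f '' Icc 0 1 ∩ closedBall p η := closure_minimal hsub hcl
  refine ⟨s / 2, half_pos hs, closure (f '' U), ?_, ?_, ?_, hsub2, ?_⟩
  · exact hN.of_isClosed_subset isClosed_closure (fun x hx => (hsub2 hx).1)
  · apply IsPreconnected.closure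
    have e : f '' U = ⋃₀ ((fun t => f '' ball t (d t)) '' (f ⁻¹' {p})) := by
      rw [hU, image_iUnion₂, sUnion_image]
    rw [e]
    apply isPreconnected_sUnion p
    · rintro _ ⟨t, ht, rfl⟩
      exact ⟨t, mem_ball_self (hd0 t), ht⟩
    · rintro _ ⟨t, _, rfl⟩
      exact (convex_ball t (d t)).isPreconnected.image f hf.continuousOn
  · by_cases h : (f ⁻¹' {p}).Nonempty
    · obtain ⟨t, ht⟩ := h
      right
      exact subset_closure ⟨t, mem_biUnion ht (mem_ball_self (hd0 t)), ht⟩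
    · left
      rw [not_nonempty_iff_eq_empty] at h
      rw [hU, h]
      simp
  · rintro _ ⟨⟨u, hu, rfl⟩, hb⟩
    by_cases h : u ∈ U
    · exact subset_closure ⟨u, h, rfl⟩
    · exact absurd ⟨u, ⟨hu, h⟩, rfl⟩
        (hball (lt_of_le_of_lt (mem_closedBall.1 hb) (half_lt_self hs)))

theorem lc_path (γ : Br) (p : ℂ) : LC2 (range γ) p := by
  have hc : Continuous (fun x : ℝ => γ (projIcc 0 1 zero_le_one x)) :=
    γ.continuous.comp continuous_projIcc
  have e : (fun x : ℝ => γ (projIcc 0 1 zero_le_one x)) '' Icc 0 1 = range γ := by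
    apply Subset.antisymm
    · rintro _ ⟨x, _, rfl⟩
      exact ⟨_, rfl⟩
    · rintro _ ⟨t, rfl⟩
      exact ⟨t, t.2, by simp⟩
  rw [← e]
  apply lc_fun _ hc
  rw [e]
  rintro _ ⟨x, rfl⟩
  exact ⟨_, rfl⟩

end RlcA

theorem p_RLC :
    S_RLC := by
  intro F hF
  have key : (∀ K ∈ F, ∃ γ : Br, range γ = K) →
      IsCompact (⋃₀ F) ∧ ∀ p, RlcA.LC2 (⋃₀ F) p := by
    induction F, hF using Set.Finite.induction_on with
    | empty =>
      intro _
      rw [sUnion_empty]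
      exact ⟨isCompact_empty, RlcA.lc_empty⟩
    | insert _ _ ih =>
      intro h
      obtain ⟨γ, hγ⟩ := h _ (mem_insert _ _)
      obtain ⟨c, l⟩ := ih (fun K hK => h K (mem_insert_of_mem _ hK))
      rw [sUnion_insert, ← hγ]
      exact ⟨(isCompact_range γ.continuous).union c,
        fun p => RlcA.lc_union (RlcA.lc_path γ p) (l p)⟩
  intro h
  obtain ⟨c, l⟩ := key h
  refine ⟨c, fun p η hη => ?_⟩
  obtain ⟨s, hs, κ, a1, a2, _, a4, a5⟩ := l p η hη
  exact ⟨s, hs, κ, a1, a2, a4, a5⟩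

end Pool.Agent.P.MP_d66c6d_pr
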