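import Pool.Agent.P.MP_d66c6d_pr.R.Iface
import Pool.Agent.P.MP_d66c6d_pr.B.Iface
import Pool.Agent.P.MP_d66c6d_pr.U.Iface

/-! Step RLOOP of the carpet project. -/

namespace Pool.Agent.P.MP_d66c6d_pr

open MeasureTheory ProbabilityTheory Set Metric Filter Topology
open scoped ENNReal

namespace RloopA

theorem ae_loop (hLOOP : S_LOOP) {ν : Measure Br} (hν : IsBridge ν) {N : Set KC}
    (hN : MeasurableSet N) (h0 : muK ν N = 0) : ∀ᵐ z : ℂ, ∀ᵐ p ∂grM ν z z, trB p.2 ∉ N := by
  have := hν.prob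
  have hΦ : Measurable fun p : TP => N.indicator (1 : KC → ℝ≥0∞) (trB p.2) :=
    (measurable_one.indicator hN).comp (by fun_prop)
  have hΦ' : Measurable fun p : TP =>
      (ENNReal.ofReal p.1)⁻¹ * N.indicator (1 : KC → ℝ≥0∞) (trB p.2) :=
    measurable_fst.ennreal_ofReal.inv.mul hΦ
  have h1 := (hLOOP ν hν _ hΦ).1
  rw [muK, ← lintegral_indicator_one hN,
    lintegral_map (measurable_one.indicator hN) (by fun_prop)] at h0
  have m : Measurable fun x : ℂ => ∫⁻ p,
      (ENNReal.ofReal p.1)⁻¹ * N.indicator (1 : KC → ℝ≥0∞) (trB p.2) ∂grM ν x x :=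
    measurable_grM ν measurable_id' measurable_id' (hΦ'.comp measurable_snd)
  rw [h0, eq_comm, lintegral_eq_zero_iff m] at h1
  filter_upwards [h1] with z hz
  filter_upwards [(lintegral_eq_zero_iff hΦ').1 hz] with p hp h
  simp [h] at hp

theorem ae_raw {ν : Measure Br} [SFinite ν] {x y : ℂ} {P : TP → Prop}
    (h : ∀ᵐ q ∂grM ν x y, P q) :
    ∀ᵐ q ∂(volume : Measure ℝ).prod ν, 0 < q.1 → P (q.1, seg x y q.1 q.2) := by
  have h1 := ae_of_ae_map (Measurable.aemeasurable (by fun_prop)) h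
  have h2 : (volume : Measure ℝ).restrict (Ioi 0) ≪
      ((volume : Measure ℝ).restrict (Ioi 0)).withDensity fun t => hk t (y - x) := by
    refine withDensity_absolutelyContinuous' (Measurable.aemeasurable (by fun_prop)) ?_
    filter_upwards [ae_restrict_mem measurableSet_Ioi] with t ht
    have ht' : 0 < t := ht
    simp only [hk, ne_eq, ENNReal.ofReal_eq_zero, not_le]
    positivity
  have h3 := (h2.prod (Measure.AbsolutelyContinuous.refl ν)).ae_le h1
  rw [Measure.restrict_prod_eq_prod_univ] at h3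
  filter_upwards [(ae_restrict_iff' (measurableSet_Ioi.prod MeasurableSet.univ)).1 h3] with q hq h0
  exact hq ⟨h0, trivial⟩

end RloopA

theorem p_RLOOP (hLOOP : S_LOOP) (hMARKR : S_MARKR) (hEV : S_EV) (hREV : S_REV) :
    S_RLOOP := by
  intro ν hν N hN h0
  have := hν.prob
  filter_upwards [RloopA.ae_loop hLOOP hν hN h0] with z hz
  have hΨ : Measurable fun q : TP × TP => N.indicator (1 : KC → ℝ≥0∞) (trB q.1.2 ⊔ trB q.2.2) :=
    (measurable_one.indicator hN).comp (by fun_prop)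
  have h1 := (hMARKR ν hν z z).1 _ hΨ
  have h2 : ∫⁻ p, ∫⁻ a in Ioo (0 : ℝ) p.1, N.indicator (1 : KC → ℝ≥0∞)
      (trB (hd a p).2 ⊔ trB (tl a p).2) ∂volume ∂grM ν z z = 0 := by
    refine (lintegral_congr_ae ?_).trans lintegral_zero
    filter_upwards [hz] with p hp
    refine setLIntegral_eq_zero measurableSet_Ioo fun a ha => ?_
    have e : trB (hd a p).2 ⊔ trB (tl a p).2 = trB p.2 := by
      obtain ⟨-, -, e1, e2, -⟩ := hEV.2.1 p a ha.1 ha.2
      refine TopologicalSpace.NonemptyCompacts.ext ?_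
      change range (hd a p).2 ∪ range (tl a p).2 = range p.2
      rw [e1, e2, ← image_union, Icc_union_Icc_eq_Icc ha.1.le ha.2.le,
        (hEV.1 p (ha.1.trans ha.2)).2.2.1]
    simp only [e, indicator_of_notMem hp, Pi.zero_apply]
  have m1 : Measurable fun w : ℂ × TP => ∫⁻ q, N.indicator (1 : KC → ℝ≥0∞)
      (trB w.2.2 ⊔ trB q.2) ∂grM ν w.1 z :=
    measurable_grM ν measurable_fst measurable_const
      (hΨ.comp (measurable_fst.snd.prodMk measurable_snd))
  have m2 : Measurable fun w : ℂ => ∫⁻ p, ∫⁻ q, N.indicator (1 : KC → ℝ≥0∞)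
      (trB p.2 ⊔ trB q.2) ∂grM ν w z ∂grM ν z w :=
    measurable_grM ν measurable_const measurable_id' m1
  rw [h2, eq_comm, lintegral_eq_zero_iff m2] at h1
  filter_upwards [h1] with z' hz'
  filter_upwards [(lintegral_eq_zero_iff (m1.comp measurable_prodMk_left)).1 hz',
    (hREV.2 ν hν).2.2.2.2.2.1 z z'] with β hβ he
  filter_upwards [RloopA.ae_raw
    ((lintegral_eq_zero_iff (hΨ.comp measurable_prodMk_left)).1 hβ)] with q hq h hm
  rw [clsP, he.2.1, he.2.2] at hm
  simpa [hm] using hq h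

end Pool.Agent.P.MP_d66c6d_pr
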