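import Pool.Agent.P.MP_d66c6d_pr.R.Iface

/-! Step RMUL of the carpet project. -/

namespace Pool.Agent.P.MP_d66c6d_pr

open MeasureTheory ProbabilityTheory Set Metric Filter Topology
open scoped ENNReal

namespace RmulA

theorem meas_ae {α β : Type} [MeasurableSpace α] [MeasurableSpace β] (m : Measure β) [SFinite m]
    {P : α → β → Prop} (h : MeasurableSet {x : α × β | P x.1 x.2}) :
    MeasurableSet {a | ∀ᵐ b ∂m, P a b} :=
  measurable_measure_prodMk_left (ν := m) h.compl (measurableSet_singleton 0)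

theorem iun_cons {n : ℕ} (S T₀ : Cfg KC) (T : Fin n → Cfg KC) :
    S ∪ Cfg.iun (Fin.cons T₀ T : Fin (n + 1) → Cfg KC) = S ∪ T₀ ∪ Cfg.iun T := by
  ext x
  simp [Fin.exists_fin_succ, or_assoc]

theorem main {ν : Measure Br} [IsProbabilityMeasure ν] {A : Set KC} (hA : MeasurableSet A)
    {G : Set (Cfg KC)} (hG : InsC ((muK ν).restrict A) G) (n : ℕ) :
    ∀ ϖ : Fin n → Measure TP, (∀ j, IsFiniteMeasure (ϖ j)) → (∀ j, GdP ν A (ϖ j)) →
    ∃ Gd : Set (Cfg KC × (Fin n → TP)), MeasurableSet Gd ∧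
      (∀ S ∉ G, ∀ᵐ η ∂Measure.pi ϖ, (S, η) ∈ Gd) ∧
      ∀ S η, (S, η) ∈ Gd → ∀ F : Fin n → Cfg KC → Prop,
        (∀ j, ∃ k, ∃ᵐ u ∂xiP ν k, okC k (η j) u ∧ (newT k (η j) u).pts ⊆ A ∧
          F j (newT k (η j) u)) → ∃ T : Fin n → Cfg KC, (∀ j, F j (T j)) ∧ S ∪ Cfg.iun T ∉ G := by
  induction n with
  | zero =>
    refine fun ϖ _ _ => ⟨Prod.fst ⁻¹' Gᶜ, measurable_fst hG.1.compl,
      fun S hS => Eventually.of_forall fun _ => hS, fun S η h F _ =>
        ⟨Fin.elim0, fun j => j.elim0, ?_⟩⟩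
    have : S ∪ Cfg.iun (Fin.elim0 : Fin 0 → Cfg KC) = S := by
      ext x
      simp
    rwa [this]
  | succ n ih =>
    intro ϖ hf hϖ
    obtain ⟨Gd, h1, h2, h3⟩ := ih (fun j => ϖ j.succ) (fun j => hf _) fun j => hϖ _
    have hm : ∀ k, MeasurableSet {x : (Cfg KC × TP × (Fin n → TP)) × (Fin k → Xi) |
        okC k x.1.2.1 x.2 → (newT k x.1.2.1 x.2).pts ⊆ A →
          (x.1.1 ∪ newT k x.1.2.1 x.2, x.1.2.2) ∈ Gd} := fun k => by
      have hq : Measurable fun x : (Cfg KC × TP × (Fin n → TP)) × (Fin k → Xi) =>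
          (x.1.2.1, x.2) := by fun_prop
      have hN := (measurable_newT k).comp hq
      exact (hq (measurableSet_okC k)).imp ((hN (measurableSet_allIn hA)).imp
        (((Measurable.cfgUnion measurable_fst.fst hN).prodMk measurable_fst.snd.snd) h1))
    have hM : MeasurableSet {x : Cfg KC × TP × (Fin n → TP) | ∀ k, ∀ᵐ u ∂xiP ν k,
        okC k x.2.1 u → (newT k x.2.1 u).pts ⊆ A → (x.1 ∪ newT k x.2.1 u, x.2.2) ∈ Gd} := by
      rw [ofPred_forall]
      exact MeasurableSet.iInter fun k => meas_ae _ (hm k)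
    have hmp : MeasurePreserving (fun η : Fin (n + 1) → TP => (η 0, fun j : Fin n => η j.succ))
        (Measure.pi ϖ) ((ϖ 0).prod (Measure.pi fun j : Fin n => ϖ j.succ)) :=
      measurePreserving_piFinSuccAbove ϖ 0
    refine ⟨_, (measurable_fst.prodMk (hmp.measurable.comp measurable_snd)) hM, fun S hS => ?_,
      fun S η h F hF => ?_⟩
    · refine hmp.quasiMeasurePreserving.ae
        ((Measure.ae_prod_iff_ae_ae (measurable_prodMk_left (x := S) hM)).2 ?_)
      filter_upwards [hϖ 0 G hG S hS] with p hp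
      refine ae_all_iff.2 fun k => (Measure.ae_ae_comm (p := fun (η : Fin n → TP) u =>
        okC k p u → (newT k p u).pts ⊆ A → (S ∪ newT k p u, η) ∈ Gd) ?_).2 ?_
      · have hq : Measurable fun x : (Fin n → TP) × (Fin k → Xi) => ((S, p, x.1), x.2) := by
          fun_prop
        exact hq (hm k)
      · filter_upwards [hp k] with u hu
        by_cases c : okC k p u ∧ (newT k p u).pts ⊆ A
        · exact (h2 _ (hu c.1 c.2)).mono fun η h _ _ => h
        · exact Eventually.of_forall fun η a b => absurd ⟨a, b⟩ c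
    · obtain ⟨k, hk⟩ := hF 0
      obtain ⟨u, ⟨a, b, c⟩, d⟩ := (hk.and_eventually (h k)).exists
      obtain ⟨T, hT, e⟩ := h3 _ _ (d a b) (fun j => F j.succ) fun j => hF j.succ
      exact ⟨Fin.cons (newT k (η 0) u) T, Fin.cases c hT, by rwa [iun_cons]⟩

end RmulA

theorem p_RMUL :
    S_RMUL := by
  intro ν hν A hA ι _ ϖ hf hϖ G hG S hS
  have := hν.prob
  set e := (Fintype.equivFin ι).symm
  obtain ⟨Gd, -, h2, h3⟩ := RmulA.main hA hG _ (fun j => ϖ (e j)) (fun j => hf _) fun j => hϖ _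
  have hmp := (measurePreserving_piCongrLeft (α := fun _ : ι => TP) ϖ e).symm
  filter_upwards [hmp.quasiMeasurePreserving.ae (h2 S hS)] with η hη F hF
  obtain ⟨T, hT, h⟩ := h3 S _ hη (fun j => F (e j)) fun j => hF (e j)
  refine ⟨fun j => T (e.symm j), fun j => by simpa using hT (e.symm j), ?_⟩
  have : Cfg.iun (fun j => T (e.symm j)) = Cfg.iun T :=
    Cfg.ext (e.symm.surjective.iUnion_comp fun j => (T j).pts)
  rwa [this]

end Pool.Agent.P.MP_d66c6d_pr
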