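import Pool.Agent.P.MP_d66c6d_pr.R.Iface
import Pool.Agent.P.MP_d66c6d_pr.G.IfaceX
import Pool.Agent.P.MP_d66c6d_pr.L.Iface
import Pool.Agent.P.MP_d66c6d_pr.F.Iface
import Pool.Agent.P.MP_d66c6d_pr.B.Iface

/-! Step RNUL of the carpet project. -/

namespace Pool.Agent.P.MP_d66c6d_pr

open MeasureTheory ProbabilityTheory Set Metric Filter Topology
open scoped ENNReal

namespace RnulA

theorem meas_j (c : ℝ) : Measurable fun K : KC => (K, c) := measurable_prodMk_right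

theorem muL2_fst (c : ℝ) (m : Measure KC) {A : Set KC} (hA : MeasurableSet A) :
    muL2 c m (Prod.fst ⁻¹' A) = (ENNReal.ofReal c + ENNReal.ofReal (1 - c)) * m A := by
  rw [muL2, Measure.add_apply, Measure.map_apply (meas_j c) (measurable_fst hA), ← prod_univ,
    Measure.prod_prod, Measure.restrict_apply_univ, Real.volume_Ioc, add_mul, mul_comm (m A)]
  congr 1
  simp [preimage, Measure.smul_apply]

theorem muL2_fin (c : ℝ) (m : Measure KC) {A : Set KC} (hA : MeasurableSet A) (h : m A ≠ ∞) :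
    muL2 c m (Prod.fst ⁻¹' A) ≠ ∞ := by
  rw [muL2_fst c m hA]
  exact ENNReal.mul_ne_top (ENNReal.add_ne_top.2 ⟨ENNReal.ofReal_ne_top, ENNReal.ofReal_ne_top⟩) h

theorem muL2_qmp (c : ℝ) (m : Measure KC) :
    Measure.QuasiMeasurePreserving Prod.fst (muL2 c m) m :=
  ⟨measurable_fst, Measure.AbsolutelyContinuous.mk fun A hA h => by
    rw [Measure.map_apply measurable_fst hA, muL2_fst c m hA, h, mul_zero]⟩

theorem muL2_res (c : ℝ) (m : Measure KC) [SFinite m] {A : Set KC} (hA : MeasurableSet A) :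
    (muL2 c m).restrict (A ×ˢ Iic c) = (ENNReal.ofReal c • m.restrict A).map fun K => (K, c) := by
  rw [muL2, Measure.restrict_add, Measure.restrict_map (meas_j c) (hA.prod measurableSet_Iic),
    ← Measure.prod_restrict, Measure.restrict_restrict measurableSet_Iic,
    show Iic c ∩ Ioc c 1 = ∅ from eq_empty_of_forall_notMem fun x h => h.2.1.not_ge h.1,
    Measure.restrict_empty, Measure.prod_zero, add_zero, Measure.restrict_smul,
    mk_preimage_prod_left (show c ∈ Iic c from self_mem_Iic)]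

theorem muL2_ac {c : ℝ} (hc : 0 < c) (m : Measure KC) {A V : Set KC} (hA : MeasurableSet A)
    (h : A ⊆ V) : (m.restrict A).map (fun K => (K, c)) ≪
      (muL2 c (m.restrict V)).restrict (Prod.fst ⁻¹' A) := by
  rw [muL2, Measure.restrict_add, Measure.restrict_map (meas_j c) (measurable_fst hA),
    Measure.restrict_smul]
  refine Measure.AbsolutelyContinuous.add_right (Measure.AbsolutelyContinuous.map ?_ (meas_j c)) _
  rw [show (fun K : KC => (K, c)) ⁻¹' (Prod.fst ⁻¹' A) = A from rfl,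
    Measure.restrict_restrict_of_subset h]
  exact Measure.absolutelyContinuous_smul (ENNReal.ofReal_pos.2 hc).ne'

theorem ae_add (hPPO : S_PPO) {E : Type} [MeasurableSpace E] (m m' : Measure E) [SFinite m]
    [SFinite m'] {P : Cfg E → Prop} (hP : MeasurableSet {S | P S})
    (h : ∀ᵐ S ∂PP m, ∀ᵐ T ∂PP m', P (S ∪ T)) : ∀ᵐ S ∂PP (m + m'), P S := by
  have hm : Measurable fun p : Cfg E × Cfg E => p.1 ∪ p.2 := by fun_prop
  rw [← (hPPO E m inferInstance).1 m' inferInstance, ae_map_iff hm.aemeasurable hP]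
  exact (Measure.ae_prod_iff_ae_ae (hm hP)).2 h

theorem ae_fin (hPPF : S_PPF) (hPPO : S_PPO) {E F : Type} [MeasurableSpace E] [MeasurableSpace F]
    (m : Measure E) [IsFiniteMeasure m] {g : E → F} (hg : Measurable g) {P : Cfg F → Prop}
    (hP : MeasurableSet {S | P S})
    (h : ∀ k, ∀ᵐ e ∂Measure.pi fun _ : Fin k => m, P ((Cfg.rng e).map g)) :
    ∀ᵐ S ∂PP (m.map g), P S := by
  rw [← (hPPO E m inferInstance).2.2.1 F g hg, ae_map_iff (measurable_cfgMap hg).aemeasurable hP,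
    ← (hPPF E m inferInstance).eq_PP, ppFin, Measure.ae_sum_iff]
  exact fun k => Measure.ae_smul_measure
    ((ae_map_iff measurable_rng.aemeasurable (measurable_cfgMap hg hP)).2 (h k)) _

theorem insC_map {E F : Type} [MeasurableSpace E] [MeasurableSpace F] {m : Measure E} {g : E → F}
    (hg : Measurable g) {G : Set (Cfg F)} (h : InsC (m.map g) G) (S : Cfg F) :
    InsC m {T | S ∪ T.map g ∈ G} := by
  refine ⟨(Measurable.cfgUnion measurable_const (measurable_cfgMap hg)) h.1, fun T hT => ?_⟩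
  filter_upwards [ae_of_ae_map hg.aemeasurable (h.2 _ hT)] with x hx
  have e : S ∪ (insert x T).map g = insert (g x) (S ∪ T.map g) :=
    Cfg.ext (by simp [image_insert_eq])
  exact fun h' => hx (e ▸ h')

theorem gr_pos (hREV : S_REV) {ν : Measure Br} (hν : IsBridge ν) : ∀ᵐ p ∂GR ν, 0 < p.1 := by
  have := hν.prob
  have hm : MeasurableSet {p : TP | ¬ 0 < p.1} :=
    (measurableSet_lt measurable_const measurable_fst).compl
  rw [ae_iff, ← lintegral_indicator_one hm, lintegral_GR ν (measurable_one.indicator hm)]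
  simp only [lintegral_indicator_one hm, fun x y =>
    ae_iff.1 (((hREV.2 ν hν).2.2.2.2.2.1 x y).mono fun _ h => h.1), lintegral_zero]

theorem fin_big (hMUK : S_MUK) {ν : Measure Br} (hν : IsBridge ν) {R s : ℝ} (hR : 0 < R)
    (hs : 0 < s) {A : Set KC} (h : A ⊆ inK (ball 0 R) ∩ bigK s) : muK ν A ≠ ∞ := by
  obtain ⟨C, -, hC⟩ := (hMUK ν hν).2.2.2.1
  exact ne_top_of_le_ne_top ENNReal.ofReal_ne_top ((measure_mono h).trans (hC 0 R s hR hs))

theorem meas_keep (R δ : ℝ) : MeasurableSet {K : KC | Keep R δ K} := by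
  refine ((isOpen_inK (isOpen_ball (x := (0 : ℂ)) (ε := R))).measurableSet.inter
    ((measurableSet_bigK δ).compl.union
      ((isClosed_hitK (isClosed_closedBall (x := (0 : ℂ)) (ε := 13 / 10))).measurableSet.inter
        (isClosed_inK (isClosed_closedBall (x := (0 : ℂ)) (ε := 7 / 5))).measurableSet))).congr ?_
  ext K
  simp [Keep, inK, hitK, bigK]

/-- The loops that are cut. -/
def Ac (D : ℝ) : Set KC :=
  (inK (ball 0 D) ∩ hitK (closedBall 0 (13 / 10))) \ inK (closedBall 0 (7 / 5))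

theorem meas_Ac (D : ℝ) : MeasurableSet (Ac D) :=
  ((isOpen_inK isOpen_ball).measurableSet.inter
    (isClosed_hitK isClosed_closedBall).measurableSet).diff
    (isClosed_inK isClosed_closedBall).measurableSet

theorem Ac_sub (D : ℝ) : Ac D ⊆ inK (ball 0 D) ∩ bigK (1 / 10) := by
  rintro K ⟨⟨h1, x, hx, hx'⟩, h2⟩
  obtain ⟨y, hy, hy'⟩ := not_subset.1 h2
  refine ⟨h1, le_trans ?_ (dist_le_diam_of_mem K.isCompact.isBounded hy hx)⟩
  rw [mem_closedBall] at hx' hy'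
  linarith [dist_triangle y x 0]

theorem sets_loc {D c c₀ : ℝ} (hc : c₀ ≤ c) {k n : ℕ} (S : Cfg (KC × ℝ)) (η : Fin k ⊕ Fin n → TP)
    (h : ∀ i, trB (η (.inl i)).2 ∈ inK (ball 0 D)) :
    sets (locX D c (S ∪ (Cfg.rng fun i => η (.inl i)).map (fun p => (trB p.2, c₀)),
      fun i => η (.inr i))) = ins (ball 0 D) (sets (lev c S)) ∪ range fun j => range (η j).2 := by
  rw [locX, sets_union, sets_res_inK]
  ext K
  constructor
  · rintro (⟨⟨_, ⟨p, ⟨hp | ⟨_, ⟨i, rfl⟩, rfl⟩, h1⟩, rfl⟩, rfl⟩, h2⟩ | ⟨_, ⟨i, rfl⟩, rfl⟩)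
    · exact Or.inl ⟨⟨_, ⟨p, ⟨hp, h1⟩, rfl⟩, rfl⟩, h2⟩
    · exact Or.inr ⟨.inl i, rfl⟩
    · exact Or.inr ⟨.inr i, rfl⟩
  · rintro (⟨⟨_, ⟨p, ⟨hp, h1⟩, rfl⟩, rfl⟩, h2⟩ | ⟨i | i, rfl⟩)
    · exact Or.inl ⟨⟨_, ⟨p, ⟨Or.inl hp, h1⟩, rfl⟩, rfl⟩, h2⟩
    · exact Or.inl ⟨⟨_, ⟨(trB (η (.inl i)).2, c₀), ⟨Or.inr ⟨_, ⟨i, rfl⟩, rfl⟩, hc⟩, rfl⟩, rfl⟩, h i⟩
    · exact Or.inr ⟨_, ⟨i, rfl⟩, rfl⟩

theorem fin_of_LF {R : ℝ} {S : Cfg (KC × ℝ)} (h : LF (fun j => Prod.fst ⁻¹' stdA j) S)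
    (h' : ∀ p ∈ S.pts, p.1 ∈ inK (ball 0 R)) :
    {p ∈ S.pts | 1 / 25 ≤ diam (p.1 : Set ℂ)}.Finite := by
  obtain ⟨j, hj⟩ := exists_nat_ge (max R 25)
  refine (h.2 j).subset fun p hp => ⟨hp.1, Subset.trans (h' p hp.1) (ball_subset_ball ?_),
    le_trans (one_div_le_one_div_of_le (by norm_num) ?_) hp.2⟩
  · linarith [le_max_left R 25]
  · linarith [le_max_right R 25]

end RnulA

open RnulA in
theorem p_RNUL (hRCORE : S_RCORE) (hRONE : S_RONE) (hRMUL : S_RMUL) (hRINS : S_RINS) (hRROOT : S_RROOT) (hSUB : S_SUB) (hLVA : S_LVA) (hPPF : S_PPF) (hPPO : S_PPO) (hMUK : S_MUK) (hREV : S_REV) :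
    S_RNUL := by
  intro ν hν L β hβ c₀ c₂ θ h0 h02 h21 hL R hR n G hG hG0 E hE hEG
  have := (hMUK ν hν).2.1
  have := hβ.fin
  have hD : 3 ≤ 10 * L := by linarith [hβ.ten]
  generalize 10 * L = D at hD hEG ⊢
  have hc : c₀ ∈ Icc (0 : ℝ) 1 := ⟨h0.le, h02.le.trans h21⟩
  have := (hLVA ν hν c₀ hc (ball 0 R) isOpen_ball).1
  obtain ⟨l1, -, l3, l4, l5⟩ := hLVA ν hν c₀ hc (ball 0 (max R D)) isOpen_ball
  have hA : MeasurableSet (inK (ball 0 3) ∩ bigK (1 / 25)) :=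
    (isOpen_inK isOpen_ball).measurableSet.inter (measurableSet_bigK _)
  obtain ⟨r1, r2⟩ := hRINS _ (muL2 c₀ ((muK ν).restrict (inK (ball 0 R)))) inferInstance
  obtain ⟨G', g1, g2, g3⟩ := r1 _ _ (measurable_fst hA) (muL2_fin _ _ hA (ne_top_of_le_ne_top
    (fin_big hMUK hν (by norm_num) (by norm_num) Subset.rfl) (Measure.restrict_apply_le _ _)))
    inferInstance (muL2_ac h0 (muK ν) hA fun K hK => Subset.trans hK.1 (ball_subset_ball hR))
    G hG hG0
  have hf : IsFiniteMeasure ((muK ν).restrict (Ac D)) :=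
    isFiniteMeasure_restrict.2 (fin_big hMUK hν (by linarith) (by norm_num) (Ac_sub D))
  obtain ⟨ϖ, w1, w2, w3, w4⟩ := hRROOT ν hν (7 / 5) (ENNReal.ofReal c₀ • (muK ν).restrict (Ac D))
    (Measure.smul_finite _ ENNReal.ofReal_ne_top) (Measure.smul_absolutelyContinuous.trans
      (Measure.restrict_mono_set _ fun K hK => hK.2).absolutelyContinuous)
  have ht : Measurable fun p : TP => trB p.2 := by fun_prop
  have hZ : MeasurableSet (Ac D ×ˢ Iic c₀) := (meas_Ac D).prod measurableSet_Iic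
  set μ := muL2 c₀ ((muK ν).restrict (inK (ball 0 (max R D)))) with hμ
  have hsub : Ac D ⊆ inK (ball 0 (max R D)) := fun K hK =>
    Subset.trans hK.1.1 (ball_subset_ball (le_max_right _ _))
  have e1 : μ.restrict (Ac D ×ˢ Iic c₀) = ϖ.map fun p => (trB p.2, c₀) := by
    rw [hμ, muL2_res _ _ (meas_Ac D), Measure.restrict_restrict_of_subset hsub, ← w3,
      Measure.map_map (meas_j c₀) ht]
    rfl
  have e2 : μ = μ.restrict (Ac D ×ˢ Iic c₀)ᶜ + ϖ.map fun p => (trB p.2, c₀) := by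
    rw [← e1, Measure.restrict_compl_add_restrict hZ]
  have hac : PP (μ.restrict (Ac D ×ˢ Iic c₀)ᶜ) ≪ PP μ := (hRINS _ μ inferInstance).2 _ hZ.compl (by
    rw [compl_compl, ← Measure.restrict_apply_univ, e1]
    exact measure_ne_top _ _)
  have a1 := (l3 c₂ ⟨h02.le, h21⟩).quasiMeasurePreserving.ae
    ((hSUB ν hν c₂ θ (h0.trans h02) hL).1 (max R D))
  have a2 := (hPPO _ μ inferInstance).2.2.2.2.2.1 _ ((muL2_qmp c₀ _).ae (ae_restrict_of_ae
    ((hMUK ν hν).2.2.2.2.2.2.1 (fun K => ∃ γ : Br, range γ = (K : Set ℂ))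
      (ae_of_all _ fun l => ⟨_, rfl⟩))))
  have a3 : ∀ᵐ S ∂PP μ, ∀ m : ℕ, S.res {p | Keep R (1 / ((m : ℝ) + 1)) p.1} ∉ G' := by
    refine ae_all_iff.2 fun m => ?_
    have hK := meas_keep R (1 / ((m : ℝ) + 1))
    have b1 := r2 _ (measurable_fst hK) (muL2_fin _ _ hK.compl (by
      rw [Measure.restrict_apply hK.compl]
      refine fin_big hMUK hν (R := R) (s := 1 / ((m : ℝ) + 1)) (by linarith) (by positivity)
        fun K h => ⟨h.2, not_lt.1 fun h' => h.1 ⟨h.2, Or.inl h'⟩⟩)) g3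
    rw [← (hPPO _ _ inferInstance).2.1 _ (measurable_fst hK)] at b1
    have b2 := ae_of_ae_map (measurable_res (measurable_fst hK)).aemeasurable
      (measure_eq_zero_iff_ae_notMem.1 b1)
    filter_upwards [(l5 (ball 0 R) isOpen_ball
      (ball_subset_ball (le_max_left _ _))).quasiMeasurePreserving.ae b2] with S hS
    refine fun h => hS (Eq.mp (congrArg (· ∈ G') (Cfg.ext ?_)) h)
    ext p
    exact ⟨fun h => ⟨⟨h.1, h.2.1⟩, h.2⟩, fun h => ⟨h.1.1, h.2⟩⟩
  have a4 := (hPPO _ (μ.restrict (Ac D ×ˢ Iic c₀)ᶜ) inferInstance).2.2.2.2.2.1 _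
    (ae_restrict_mem hZ.compl)
  have hP : MeasurableSet {S | (Measure.pi fun _ : Fin n => β) (Prod.mk S ⁻¹' E) = 0} :=
    measurable_measure_prodMk_left hE (measurableSet_singleton 0)
  refine (Measure.measure_prod_null hE).2 ?_
  change ∀ᵐ S ∂PP μ, (Measure.pi fun _ : Fin n => β) (Prod.mk S ⁻¹' E) = 0
  rw [e2]
  refine ae_add hPPO _ _ hP ?_
  filter_upwards [hac.ae_le a1, hac.ae_le a2, hac.ae_le a3, hac.ae_le l4, a4]
    with S s1 s2 s3 s4 s5
  refine ae_fin hPPF hPPO ϖ (by fun_prop)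
    ((Measurable.cfgUnion measurable_const measurable_id) hP) fun k => ?_
  let ϖs : Fin k ⊕ Fin n → Measure TP := Sum.elim (fun _ => ϖ) fun _ => β
  have f1 : ∀ j, IsFiniteMeasure (ϖs j) := by
    rintro (j | j)
    exacts [w1, hβ.fin]
  have f2 : ∀ j, GdP ν (inK (ball 0 3) ∩ bigK (1 / 25)) (ϖs j) := by
    rintro (j | j)
    · exact hRONE ν hν _ hA ϖ (w2.trans (Measure.le_add_left le_rfl).absolutelyContinuous)
    · exact hRONE ν hν _ hA β (hβ.ac.add_right _)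
  have f3 : ∀ j, ∀ᵐ p ∂ϖs j, 0 < p.1 ∧ p.2 0 ∉ closedBall (0 : ℂ) (7 / 5) ∧
      p.2 1 ∉ closedBall (0 : ℂ) (7 / 5) := by
    rintro (j | j)
    · exact w4
    · filter_upwards [hβ.ac.ae_le (gr_pos hREV hν), hβ.ends] with p h1 h2
      exact ⟨h1, fun h => h2.1 (closedBall_subset_closedBall (by norm_num) h),
        fun h => h2.2 (closedBall_subset_closedBall (by norm_num) h)⟩
  have f4 : ∀ᵐ p ∂ϖ, trB p.2 ∈ Ac D := ae_of_ae_map ht.aemeasurable (p := fun K => K ∈ Ac D) (by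
    rw [w3]
    exact Measure.ae_smul_measure (ae_restrict_mem (meas_Ac D)) _)
  have key : ∀ᵐ η ∂Measure.pi ϖs,
      (S ∪ (Cfg.rng fun i => η (.inl i)).map (fun p => (trB p.2, c₀)), fun i => η (.inr i)) ∉ E := by
    filter_upwards [ae_all_iff.2 fun m : ℕ => hRMUL ν hν _ hA _ ϖs f1 f2 _
        (insC_map (meas_j c₀) g2 (S.res {p | Keep R (1 / ((m : ℝ) + 1)) p.1})) ∅
        (fun h => s3 m (Eq.mp (congrArg (· ∈ G') (Cfg.ext (by simp))) h)),
      ae_all_iff.2 fun j => (Measure.quasiMeasurePreserving_eval ϖs j).ae (f3 j),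
      ae_all_iff.2 fun i : Fin k => (Measure.quasiMeasurePreserving_eval ϖs (.inl i)).ae f4]
      with η t1 t2 t3 hη
    obtain ⟨c', hc', J, 𝒯, u1, u2⟩ := hRCORE ν hν R D c₀ c₂ S G _ η hR hD h02 s1.1 s1.2 s2
      (fin_of_LF s4.1 fun p hp => (s4.2 p hp).1)
      (fun p hp h1 h2 h3 => not_not.1 fun h4 => s5 p hp ⟨⟨⟨h2, h3⟩, h4⟩, h1⟩) t2 fun m F hF => by
        obtain ⟨T, v1, v2⟩ := t1 m F hF
        rw [Cfg.empty_union] at v2
        exact ⟨T, v1, fun h => v2 (g1 h)⟩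
    obtain ⟨i, hi⟩ := hEG _ hη c' hc' J 𝒯 fun c hc => by
      rw [sets_loc hc.1 S η fun i => (t3 i).1.1]
      exact u2 c hc
    exact u1 i hi
  filter_upwards [Measure.ae_ae_of_ae_prod
    ((measurePreserving_sumPiEquivProdPi_symm ϖs).quasiMeasurePreserving.ae key)] with e he
  exact measure_eq_zero_iff_ae_notMem.2 he

end Pool.Agent.P.MP_d66c6d_pr
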