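import Pool.Agent.P.MP_d66c6d_pr.R.Iface
import Pool.Agent.P.MP_d66c6d_pr.U.Iface
import Pool.Agent.P.MP_d66c6d_pr.B.Iface

/-! Step RONE of the carpet project. -/

namespace Pool.Agent.P.MP_d66c6d_pr

open MeasureTheory ProbabilityTheory Set Metric Filter Topology
open scoped ENNReal

namespace RoneA

theorem msae {α β : Type*} [MeasurableSpace α] [MeasurableSpace β] {μ : Measure β} [SFinite μ]
    {P : α → β → Prop} (h : MeasurableSet {q : α × β | P q.1 q.2}) :
    MeasurableSet {a | ∀ᵐ b ∂μ, P a b} :=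
  measurable_measure_prodMk_left (ν := μ) h.compl (measurableSet_singleton 0)

theorem lz {α : Type*} [MeasurableSpace α] {μ : Measure α} {f : α → ℝ≥0∞}
    (h : ∀ᵐ a ∂μ, f a = 0) : ∫⁻ a, f a ∂μ = 0 :=
  (lintegral_congr_ae h).trans lintegral_zero

theorem mark (hMARKR : S_MARKR) {ν : Measure Br} (hν : IsBridge ν) (x y : ℂ)
    {W : Set (TP × TP × TP)} (hW : MeasurableSet W)
    (h : ∀ᵐ z : ℂ, ∀ᵐ α ∂grM ν x z, ∀ᵐ z' : ℂ, ∀ᵐ β ∂grM ν z z', ∀ᵐ ω ∂grM ν z' y,
      (α, β, ω) ∈ W) :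
    ∀ᵐ p ∂grM ν x y, ∀ᵐ a : ℝ, ∀ᵐ a' : ℝ, 0 < a → 0 < a' → a + a' < p.1 → pcs a a' p ∈ W := by
  have e := (hMARKR ν hν x y).2.2 (Wᶜ.indicator 1) (measurable_one.indicator hW.compl)
  rw [lz (h.mono fun z h => lz (h.mono fun α h => lz (h.mono fun z' h => lz (h.mono fun β h =>
    lz (h.mono fun ω h => indicator_of_notMem (not_not.2 h) _)))))] at e
  let D : Set ((TP × ℝ) × ℝ) :=
    {q | 0 < q.1.2 ∧ 0 < q.2 ∧ q.1.2 + q.2 < q.1.1.1 ∧ pcs q.1.2 q.2 q.1.1 ∈ Wᶜ}
  have hD : MeasurableSet D :=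
    (measurableSet_lt measurable_const measurable_fst.snd).inter
      ((measurableSet_lt measurable_const measurable_snd).inter
        ((measurableSet_lt (measurable_fst.snd.add measurable_snd) measurable_fst.fst.fst).inter
          (Measurable.pcs' measurable_fst.snd measurable_snd measurable_fst.fst hW.compl)))
  have m1 : Measurable (D.indicator (1 : (TP × ℝ) × ℝ → ℝ≥0∞)) := measurable_one.indicator hD
  have m2 : Measurable fun q : TP × ℝ => ∫⁻ a' : ℝ, D.indicator 1 (q, a') :=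
    m1.lintegral_prod_right'
  have m3 : Measurable fun p : TP => ∫⁻ a : ℝ, ∫⁻ a' : ℝ, D.indicator 1 ((p, a), a') :=
    m2.lintegral_prod_right'
  have e2 : ∫⁻ p, ∫⁻ a : ℝ, ∫⁻ a' : ℝ, D.indicator 1 ((p, a), a') ∂volume ∂volume ∂grM ν x y
      = 0 := by
    refine le_antisymm (le_trans (lintegral_mono fun p => ?_) e.le) (zero_le)
    rw [← lintegral_indicator measurableSet_Ioo]
    refine lintegral_mono fun a => ?_
    by_cases ha : a ∈ Ioo 0 p.1
    · rw [indicator_of_mem ha, ← lintegral_indicator measurableSet_Ioo]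
      refine lintegral_mono fun a' => ?_
      by_cases hq : ((p, a), a') ∈ D
      · rw [indicator_of_mem hq, indicator_of_mem (show a' ∈ Ioo 0 (p.1 - a) from
          ⟨hq.2.1, lt_sub_iff_add_lt'.2 hq.2.2.1⟩), indicator_of_mem hq.2.2.2]
        rfl
      · rw [indicator_of_notMem hq]
        exact zero_le
    · refine (lz (ae_of_all _ fun a' => indicator_of_notMem (fun hq => ha ⟨hq.1, ?_⟩) _)).trans_le
        zero_le
      have h1 : 0 < a' := hq.2.1
      have h2 : a + a' < p.1 := hq.2.2.1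
      linarith
  filter_upwards [(lintegral_eq_zero_iff m3).1 e2] with p hp
  filter_upwards [(lintegral_eq_zero_iff (m2.comp measurable_prodMk_left)).1 hp] with a ha
  filter_upwards [(lintegral_eq_zero_iff (m1.comp measurable_prodMk_left)).1 ha] with a' ha' h1 h2 h3
  by_contra hc
  have hq : ((p, a), a') ∈ D := ⟨h1, h2, h3, hc⟩
  simp [indicator_of_mem hq] at ha'

/-- The good event. -/
def Gd (A : Set KC) (G : Set (Cfg KC)) (k : ℕ) (S : Cfg KC) (p : TP) (u : Fin k → Xi) : Prop :=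
  okC k p u → (newT k p u).pts ⊆ A → S ∪ newT k p u ∉ G

theorem ms_gd {A : Set KC} (hA : MeasurableSet A) {G : Set (Cfg KC)} (hG : MeasurableSet G)
    (k : ℕ) {α : Type*} [MeasurableSpace α] {S : α → Cfg KC} {p : α → TP} {u : α → Fin k → Xi}
    (hS : Measurable S) (hp : Measurable p) (hu : Measurable u) :
    MeasurableSet {a | Gd A G k (S a) (p a) (u a)} := by
  have h := (measurable_newT k).comp (hp.prodMk hu)
  exact MeasurableSet.imp ((hp.prodMk hu) (measurableSet_okC k))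
    (MeasurableSet.imp (h (measurableSet_allIn hA)) (Measurable.cfgUnion hS h hG.compl))

theorem green (hRLOOP : S_RLOOP) (hMARKR : S_MARKR) {ν : Measure Br} (hν : IsBridge ν)
    {A : Set KC} (hA : MeasurableSet A) {G : Set (Cfg KC)} (hG : InsC ((muK ν).restrict A) G)
    (k : ℕ) : ∀ S ∉ G, ∀ x y, ∀ᵐ p ∂grM ν x y, ∀ᵐ u ∂xiP ν k, Gd A G k S p u := by
  have := hν.prob
  induction k with
  | zero =>
    intro S hS x y
    refine ae_of_all _ fun p => ae_of_all _ fun u _ _ => ?_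
    rwa [newT, Cfg.union_empty]
  | succ k ih =>
    intro S hS x y
    have mI : Measurable fun K : KC => insert K S :=
      Measurable.cfgInsert measurable_id measurable_const
    have hN : muK ν ((fun K : KC => insert K S) ⁻¹' G ∩ A) = 0 := by
      rw [← Measure.restrict_apply (mI hG.1)]
      exact measure_eq_zero_iff_ae_notMem.2 (hG.2 S hS)
    have hR := hRLOOP ν hν _ ((mI hG.1).inter hA) hN
    have mC : Measurable fun r : (TP × TP × TP) × ℝ × Br => clsP r.1.2.1.2 r.2 := by fun_prop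
    have mP : MeasurableSet {r : (TP × TP × TP) × ℝ × Br | 0 < r.2.1 → clsP r.1.2.1.2 r.2 ∈ A →
        ∀ᵐ v ∂xiP ν k, Gd A G k (insert (clsP r.1.2.1.2 r.2) S) r.1.2.2 v} :=
      MeasurableSet.imp (measurableSet_lt measurable_const measurable_snd.fst)
        (MeasurableSet.imp (mC hA) (msae (ms_gd hA hG.1 k (mI.comp (mC.comp measurable_fst))
          measurable_fst.fst.snd.snd measurable_snd)))
    have hm := mark hMARKR hν x y (W := {t | ∀ᵐ q ∂(volume : Measure ℝ).prod ν, 0 < q.1 →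
      clsP t.2.1.2 q ∈ A → ∀ᵐ v ∂xiP ν k, Gd A G k (insert (clsP t.2.1.2 q) S) t.2.2 v})
      (msae mP) (by
        filter_upwards [hR] with z hz
        refine ae_of_all _ fun α => ?_
        filter_upwards [hz] with z' hz'
        filter_upwards [hz'] with β hβ
        have mf : Measurable fun r : TP × ℝ × Br => (((α, β, r.1), r.2) : (TP × TP × TP) × ℝ × Br) := by
          fun_prop
        refine (Measure.ae_ae_comm (p := fun (ω : TP) (q : ℝ × Br) => 0 < q.1 → clsP β.2 q ∈ A →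
          ∀ᵐ v ∂xiP ν k, Gd A G k (insert (clsP β.2 q) S) ω v) (mf mP)).2 ?_
        filter_upwards [hβ] with q hq
        by_cases h0 : 0 < q.1 ∧ clsP β.2 q ∈ A
        · filter_upwards [ih _ (fun hc => hq h0.1 ⟨hc, h0.2⟩) z' y] with ω hω _ _ using hω
        · exact ae_of_all _ fun ω h1 h2 => absurd ⟨h1, h2⟩ h0)
    filter_upwards [hm] with p hp
    have mg := ms_gd hA hG.1 (k + 1) (S := fun _ => S) (p := fun _ => p) measurable_const
      measurable_const measurable_id
    refine ae_of_cons mg ?_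
    have mcons := (mp_cons (xiM ν) k).measurable
    have m1 : MeasurableSet {x : Xi | ∀ᵐ v ∂xiP ν k, Gd A G (k + 1) S p (Fin.cons x v)} :=
      msae (mcons mg)
    refine (Measure.ae_prod_iff_ae_ae m1).2 ((Measure.ae_prod_iff_ae_ae (msae m1)).2 ?_)
    filter_upwards [hp] with a ha
    filter_upwards [ha] with a' ha'
    by_cases h0 : 0 < a ∧ 0 < a' ∧ a + a' < p.1
    · filter_upwards [ha' h0.1 h0.2.1 h0.2.2] with q hq
      by_cases h1 : 0 < q.1 ∧ clo p ((a, a'), q) ∈ A
      · filter_upwards [hq h1.1 h1.2] with v hv h2 h3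
        have h4 := hv h2.2 fun K hK => h3 (mem_insert_of_mem _ hK)
        rw [Cfg.insert_union, ← Cfg.union_insert] at h4
        exact h4
      · exact ae_of_all _ fun v h2 h3 => absurd ⟨h2.1.2.2.2, h3 (mem_insert _ _)⟩ h1
    · exact ae_of_all _ fun q => ae_of_all _ fun v h2 =>
        absurd ⟨h2.1.1, h2.1.2.1, h2.1.2.2.1⟩ h0

end RoneA

open RoneA in
theorem p_RONE (hRLOOP : S_RLOOP) (hMARKR : S_MARKR) (hLOOP : S_LOOP) :
    S_RONE := by
  intro ν hν A hA ϖ hϖ G hG S hS
  have := hν.prob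
  refine hϖ.ae_le (ae_all_iff.2 fun k => ?_)
  have hB : MeasurableSet {p : TP | ∀ᵐ u ∂xiP ν k, Gd A G k S p u} :=
    msae (ms_gd hA hG.1 k measurable_const measurable_fst measurable_snd)
  have mΦ := measurable_one.indicator (β := ℝ≥0∞) hB.compl
  have h0 : ∀ x y, ∀ᵐ p ∂grM ν x y, {p : TP | ∀ᵐ u ∂xiP ν k, Gd A G k S p u}ᶜ.indicator
      (1 : TP → ℝ≥0∞) p = 0 := fun x y =>
    (green hRLOOP hMARKR hν hA hG k S hS x y).mono fun p hp => indicator_of_notMem (not_not.2 hp) _
  refine ae_add_measure_iff.2 ⟨?_, ?_⟩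
  · change GR ν {p : TP | ∀ᵐ u ∂xiP ν k, Gd A G k S p u}ᶜ = 0
    rw [← lintegral_indicator_one hB.compl, lintegral_GR ν mΦ]
    exact lz (ae_of_all _ fun x => lz (ae_of_all _ fun y => lz (h0 x y)))
  · change LM ν {p : TP | ∀ᵐ u ∂xiP ν k, Gd A G k S p u}ᶜ = 0
    rw [← lintegral_indicator_one hB.compl, LM, lintegral_map mΦ measurable_lp, (hLOOP ν hν _ mΦ).1]
    exact lz (ae_of_all _ fun x => lz ((h0 x x).mono fun p hp => by rw [hp, mul_zero]))

end Pool.Agent.P.MP_d66c6d_pr
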