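import Pool.Agent.P.MP_d66c6d_pr.R.Iface
import Pool.Agent.P.MP_d66c6d_pr.U.Iface
import Pool.Agent.P.MP_d66c6d_pr.B.Iface

/-! Step RPCS of the carpet project. -/

namespace Pool.Agent.P.MP_d66c6d_pr

open MeasureTheory ProbabilityTheory Set Metric Filter Topology
open scoped ENNReal

namespace RpcsA

theorem tl_zero (hCUT : S_CUT) (p : TP) : tl 0 p = p := by
  refine Prod.ext (by simp [tl]) ?_
  simp only [tl, zero_div]
  exact hCUT.1 p.2

theorem ev_tl (hEV : S_EV) (hCUT : S_CUT) (p : TP) {b : ℝ} (h0 : 0 ≤ b) (hb : b < p.1) {u : ℝ}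
    (hu : u ∈ Icc 0 (p.1 - b)) : ev (tl b p) u = ev p (b + u) := by
  rcases h0.eq_or_lt with rfl | h0
  · rw [tl_zero hCUT, zero_add]
  · exact (hEV.2.1 p b h0 hb).2.1 u hu

theorem range_tl (hEV : S_EV) (hCUT : S_CUT) (p : TP) {b : ℝ} (h0 : 0 ≤ b) (hb : b < p.1) :
    range (tl b p).2 = ev p '' Icc b p.1 := by
  rcases h0.eq_or_lt with rfl | h0
  · rw [tl_zero hCUT]
    exact (hEV.1 p hb).2.2.1
  · exact (hEV.2.1 p b h0 hb).2.2.2.1

theorem image_tl (hEV : S_EV) (hCUT : S_CUT) (p : TP) {b : ℝ} (h0 : 0 ≤ b) (hb : b < p.1)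
    {x y : ℝ} (hx : b ≤ x) (hy : y ≤ p.1) :
    ev (tl b p) '' Icc (x - b) (y - b) = ev p '' Icc x y := by
  ext z
  constructor
  · rintro ⟨t, ht, rfl⟩
    exact ⟨b + t, ⟨by linarith [ht.1], by linarith [ht.2]⟩,
      (ev_tl hEV hCUT p h0 hb ⟨by linarith [ht.1], by linarith [ht.2]⟩).symm⟩
  · rintro ⟨t, ht, rfl⟩
    refine ⟨t - b, ⟨by linarith [ht.1], by linarith [ht.2]⟩, ?_⟩
    rw [ev_tl hEV hCUT p h0 hb ⟨by linarith [ht.1], by linarith [ht.2]⟩, add_sub_cancel]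

theorem sub_ev (p : TP) (u v : ℝ) (s : unitInterval) :
    sub (u / p.1) (v / p.1) p.2 s = ev p (u + (s : ℝ) * (v - u)) := by
  rw [sub_apply, ev]
  congr 2
  ring

theorem range_sub_ev (p : TP) {u v : ℝ} (h : u < v) :
    range (sub (u / p.1) (v / p.1) p.2) = ev p '' Icc u v := by
  have h1 : 0 < v - u := sub_pos.2 h
  ext z
  constructor
  · rintro ⟨s, rfl⟩
    exact ⟨_, ⟨by nlinarith [s.2.1], by nlinarith [s.2.2]⟩, (sub_ev p u v s).symm⟩
  · rintro ⟨t, ht, rfl⟩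
    refine ⟨⟨(t - u) / (v - u), div_nonneg (by linarith [ht.1]) h1.le,
      (div_le_one h1).2 (by linarith [ht.2])⟩, ?_⟩
    rw [sub_ev]
    congr 1
    field_simp
    ring

theorem times {f : ℝ → ℝ} (hf : Continuous f) {a T : ℝ} (ha : 7 / 5 ≤ f a) (hT : 7 / 5 < f T)
    (hex : ∃ t ∈ Icc a T, f t ≤ 13 / 10) :
    ∃ u τ v : ℝ, a ≤ u ∧ u < τ ∧ τ < v ∧ v < T ∧ f u = 7 / 5 ∧ f v = 7 / 5 ∧ f τ ≤ 13 / 10 ∧
      (∀ t ∈ Icc a u, 13 / 10 < f t) ∧ ∀ t ∈ Icc u v, f t ≤ 7 / 5 := by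
  obtain ⟨τ, ⟨hτ, hτ'⟩, hτm⟩ := (isCompact_Icc.inter_right
    (isClosed_le hf continuous_const) : IsCompact (Icc a T ∩ {t | f t ≤ 13 / 10})).exists_isLeast hex
  obtain ⟨u, ⟨hu, hu'⟩, hum⟩ := (isCompact_Icc.inter_right
    (isClosed_le continuous_const hf) :
      IsCompact (Icc a τ ∩ {t | 7 / 5 ≤ f t})).exists_isGreatest ⟨a, ⟨le_rfl, hτ.1⟩, ha⟩
  obtain ⟨v, ⟨hv, hv'⟩, hvm⟩ := (isCompact_Icc.inter_right
    (isClosed_le continuous_const hf) :
      IsCompact (Icc τ T ∩ {t | 7 / 5 ≤ f t})).exists_isLeast ⟨T, ⟨hτ.2, le_rfl⟩, hT.le⟩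
  change f τ ≤ 13 / 10 at hτ'
  change 7 / 5 ≤ f u at hu'
  change 7 / 5 ≤ f v at hv'
  have h1 : u < τ := lt_of_le_of_ne hu.2 (by rintro rfl; linarith)
  have h2 : τ < v := lt_of_le_of_ne hv.1 (by rintro rfl; linarith)
  have h3 : f u = 7 / 5 := by
    obtain ⟨t, ht, ht'⟩ := intermediate_value_Icc' h1.le hf.continuousOn
      (show (7 / 5 : ℝ) ∈ Icc (f τ) (f u) from ⟨by linarith, hu'⟩)
    have : t = u := le_antisymm (hum ⟨⟨hu.1.trans ht.1, ht.2⟩, ht'.ge⟩) ht.1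
    rwa [this] at ht'
  have h4 : f v = 7 / 5 := by
    obtain ⟨t, ht, ht'⟩ := intermediate_value_Icc h2.le hf.continuousOn
      (show (7 / 5 : ℝ) ∈ Icc (f τ) (f v) from ⟨by linarith, hv'⟩)
    have : t = v := le_antisymm ht.2 (hvm ⟨⟨ht.1, ht.2.trans hv.2⟩, ht'.ge⟩)
    rwa [this] at ht'
  refine ⟨u, τ, v, hu.1, h1, h2, lt_of_le_of_ne hv.2 (by rintro rfl; linarith), h3, h4, hτ',
    fun t ht => ?_, fun t ht => ?_⟩
  · by_contra h
    have := hτm ⟨⟨ht.1, by linarith [ht.2, hτ.2]⟩, not_lt.1 h⟩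
    linarith [ht.2]
  · by_contra h
    have h5 : 7 / 5 < f t := not_le.1 h
    rcases le_total t τ with h6 | h6
    · have : t = u := le_antisymm (hum ⟨⟨hu.1.trans ht.1, h6⟩, h5.le⟩) ht.1
      rw [this] at h5
      linarith
    · have : t = v := le_antisymm ht.2 (hvm ⟨⟨h6, ht.2.trans hv.2⟩, h5.le⟩)
      rw [this] at h5
      linarith

theorem disj_iff (p : TP) (S : Set ℝ) :
    Disjoint (ev p '' S) (closedBall (0 : ℂ) (13 / 10)) ↔ ∀ t ∈ S, 13 / 10 < ‖ev p t‖ := by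
  rw [Set.disjoint_left]
  constructor
  · intro h t ht
    simpa using h ⟨t, ht, rfl⟩
  · rintro h _ ⟨t, ht, rfl⟩
    simpa using h t ht

theorem main (hEV : S_EV) (hCUT : S_CUT) (p : TP) (hT : 7 / 5 < ‖ev p p.1‖) {η : ℝ}
    (hη : ∀ s ∈ Icc 0 p.1, ∀ t ∈ Icc 0 p.1, dist s t < η → dist (ev p s) (ev p t) < 1 / 10) :
    ∀ k : ℕ, ∀ a, 0 ≤ a → a < p.1 → p.1 - a ≤ k * η → 7 / 5 ≤ ‖ev p a‖ →
      ∃ (n : ℕ) (g : Fin n → Br), Exc (range p.2) g ∧ ∀ b, 0 ≤ b → b ≤ a →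
        Disjoint (ev p '' Icc b a) (closedBall 0 (13 / 10)) → Pcs n (tl b p) g
  | 0, a, _, h1, h2, _ => by
    simp only [Nat.cast_zero, zero_mul] at h2
    linarith
  | k + 1, a, h0, h1, h2, h3 => by
    by_cases hex : ∃ t ∈ Icc a p.1, ‖ev p t‖ ≤ 13 / 10
    · obtain ⟨u, τ, v, hau, huτ, hτv, hvT, hu, hv, hτ, hA, hB⟩ :=
        times (continuous_ev p).norm h3 hT hex
      have huv : u < v := huτ.trans hτv
      have hd : η ≤ v - τ := by
        by_contra h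
        have h4 := hη v ⟨by linarith, hvT.le⟩ τ ⟨by linarith, by linarith⟩ (by
          rw [Real.dist_eq, abs_of_pos (by linarith)]; exact not_le.1 h)
        rw [dist_eq_norm] at h4
        have h5 := norm_sub_norm_le (ev p v) (ev p τ)
        linarith
      obtain ⟨n, g, hg, hg'⟩ := main hEV hCUT p hT hη k v (by linarith) hvT
        (by push_cast at h2; linarith) hv.ge
      have hr := range_sub_ev p huv
      have e0 : sub (u / p.1) (v / p.1) p.2 0 = ev p u := by rw [sub_ev]; simp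
      have e1 : sub (u / p.1) (v / p.1) p.2 1 = ev p v := by rw [sub_ev]; simp
      have hne : (range (sub (u / p.1) (v / p.1) p.2) ∩ closedBall 0 (13 / 10)).Nonempty := by
        rw [hr]
        exact ⟨ev p τ, ⟨τ, ⟨huτ.le, hτv.le⟩, rfl⟩, by simpa using hτ⟩
      refine ⟨n + 1, Fin.cons (sub (u / p.1) (v / p.1) p.2) g, fun j => ?_, fun b hb hba hD => ?_⟩
      · refine Fin.cases ?_ (fun j => by simpa using hg j) j
        simp only [Fin.cons_zero]
        refine ⟨subset_inter (hCUT.2.2.1 _ _ _) ?_, by simpa [e0] using hu, by simpa [e1] using hv,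
          hne⟩
        rw [hr]
        rintro _ ⟨t, ht, rfl⟩
        simpa using hB t ht
      · have hbT : b < p.1 := by linarith
        have hbu : b ≤ u := hba.trans hau
        refine ⟨u - b, v - b, by linarith, by linarith, by simp only [tl]; linarith, ?_, ?_, ?_, ?_,
          by simpa only [Fin.cons_zero] using hne, fun b' hb' hb'v hD' => ?_⟩
        · have h4 := image_tl hEV hCUT p hb hbT (x := b) (y := u) le_rfl (by linarith)
          rw [sub_self] at h4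
          rw [h4, disj_iff]
          intro t ht
          rcases le_total t a with h5 | h5
          · exact (disj_iff p _).1 hD t ⟨ht.1, h5⟩
          · exact hA t ⟨h5, ht.2⟩
        · rw [Fin.cons_zero, hr, image_tl hEV hCUT p hb hbT hbu hvT.le]
        · rw [Fin.cons_zero, e0, ev_tl hEV hCUT p hb hbT ⟨by linarith, by linarith⟩, add_sub_cancel]
        · rw [Fin.cons_zero, e1, ev_tl hEV hCUT p hb hbT ⟨by linarith, by linarith⟩, add_sub_cancel]
        · rw [Fin.tail_cons, tl_tl p hb hb' (by linarith)]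
          refine hg' _ (by linarith) (by linarith) ?_
          have h4 := image_tl hEV hCUT p hb hbT (x := b + b') (y := v) (by linarith) hvT.le
          rwa [← h4, add_sub_cancel_left]
    · refine ⟨0, Fin.elim0, fun j => j.elim0, fun b hb hba hD => ?_⟩
      change Disjoint (range (tl b p).2) (closedBall 0 (13 / 10))
      rw [range_tl hEV hCUT p hb (by linarith), disj_iff]
      intro t ht
      rcases le_total t a with h5 | h5
      · exact (disj_iff p _).1 hD t ⟨ht.1, h5⟩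
      · by_contra h
        exact hex ⟨t, ⟨h5, ht.2⟩, not_lt.1 h⟩

end RpcsA

theorem p_RPCS (hEV : S_EV) (hCUT : S_CUT) :
    S_RPCS := by
  intro p hp h0 h1
  obtain ⟨e0, e1, -⟩ := hEV.1 p hp
  have hA : 7 / 5 ≤ ‖ev p 0‖ := by simpa [e0] using h0
  have hB : 7 / 5 < ‖ev p p.1‖ := by simpa [e1] using h1
  obtain ⟨η, hη, hu⟩ := Metric.uniformContinuousOn_iff.1
    ((isCompact_Icc (a := (0 : ℝ)) (b := p.1)).uniformContinuousOn_of_continuous
      (continuous_ev p).continuousOn) (1 / 10) (by norm_num)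
  obtain ⟨k, hk⟩ := exists_nat_ge (p.1 / η)
  obtain ⟨n, g, hg, hg'⟩ := RpcsA.main hEV hCUT p hB hu k 0 le_rfl hp
    (by rw [sub_zero]; exact (div_le_iff₀ hη).1 hk) hA
  refine ⟨n, g, ?_, hg⟩
  have h := hg' 0 le_rfl le_rfl ((RpcsA.disj_iff p _).2 fun t ht => by
    rw [le_antisymm ht.2 ht.1]; linarith)
  rwa [RpcsA.tl_zero hCUT] at h

end Pool.Agent.P.MP_d66c6d_pr
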