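import Pool.Agent.P.MP_d66c6d_pr.R.Iface

/-! Step RPHA of the carpet project. -/

namespace Pool.Agent.P.MP_d66c6d_pr

open MeasureTheory ProbabilityTheory Set Metric Filter Topology
open scoped ENNReal

namespace RphaA

/-- A set together with the blobs that meet it. -/
def nb (B : Set (Set ℂ)) (A : Set ℂ) : Set ℂ := A ∪ ⋃₀ {K ∈ B | (K ∩ A).Nonempty}

theorem nb_compact {w : ℝ} {B : Set (Set ℂ)} (hB : Blobs w B) {A : Set ℂ} (hA : IsCompact A) :
    IsCompact (nb B A) :=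
  hA.union ((hB.fin.subset (sep_subset _ _)).isCompact_sUnion fun K hK => hB.cpt K hK.1)

theorem nb_conn {w : ℝ} {B : Set (Set ℂ)} (hB : Blobs w B) {A : Set ℂ} (hA : IsPreconnected A) :
    IsPreconnected (nb B A) := by
  rcases A.eq_empty_or_nonempty with rfl | ⟨z, hz⟩
  · simp [nb, isPreconnected_empty]
  refine isPreconnected_of_forall z ?_
  rintro y (hy | ⟨K, hK, hy⟩)
  · exact ⟨A, subset_union_left, hz, hy, hA⟩
  · exact ⟨K ∪ A, union_subset (fun u hu => Or.inr ⟨K, hK, hu⟩) subset_union_left, Or.inr hz,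
      Or.inl hy, IsPreconnected.union' hK.2 (hB.conn K hK.1) hA⟩

theorem blob_sub {w : ℝ} {B : Set (Set ℂ)} (hB : Blobs w B) {K : Set ℂ} (hK : K ∈ B) {p : ℂ}
    {r : ℝ} (h : (K ∩ closedBall p r).Nonempty) : K ⊆ closedBall p (r + w) := by
  obtain ⟨u, hu, hu'⟩ := h
  intro z hz
  have h1 := hB.small K hK z hz u hu
  have h2 := dist_triangle z u p
  rw [mem_closedBall] at hu' ⊢
  linarith

theorem nb_sub {w : ℝ} {B : Set (Set ℂ)} (hB : Blobs w B) (hw : 0 ≤ w) {A : Set ℂ} {p : ℂ}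
    {r : ℝ} (h : A ⊆ closedBall p r) : nb B A ⊆ closedBall p (r + w) := by
  rintro z (hz | ⟨K, hK, hz⟩)
  · exact closedBall_subset_closedBall (by linarith) (h hz)
  · exact blob_sub hB hK.1 (hK.2.mono (inter_subset_inter_right _ h)) hz

theorem meets {w : ℝ} {B : Set (Set ℂ)} (hB : Blobs w B) {A K : Set ℂ} (hK : K ∈ B) {z : ℂ}
    (hz : z ∈ K) (h : z ∈ nb B A) : (K ∩ A).Nonempty := by
  rcases h with h | ⟨K', hK', h⟩
  · exact ⟨z, hz, h⟩
  · rw [hB.disj.elim_set hK hK'.1 z hz h]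
    exact hK'.2

theorem evl {c : ℝ} (hc : 0 < c) : ∀ᶠ t in 𝓝[>] (0 : ℝ), t < c :=
  nhdsWithin_le_nhds (eventually_lt_nhds hc)

end RphaA

open RphaA in
theorem p_RPHA (hRJAN : S_RJAN) :
    S_RPHA := by
  intro N P hN _ hP hPs hL
  obtain ⟨η, ⟨h1, h2⟩, h0⟩ : ∃ η : ℝ, (η < 1 / 200 ∧
      ∀ p ∈ P, ∀ p' ∈ P, p ≠ p' → η < dist p p' / 4) ∧ 0 < η := by
    refine (((evl (by norm_num)).and ((eventually_all_finite hP).2 fun p _ =>
      (eventually_all_finite hP).2 fun p' _ => ?_)).and self_mem_nhdsWithin).exists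
    by_cases h : p = p'
    · simp [h]
    · exact (evl (div_pos (dist_pos.2 h) four_pos)).mono fun t ht _ => ht
  choose σ hσ κ k1 k2 k3 k4 using fun p => hL p η h0
  obtain ⟨s, ⟨h3, h4⟩, h5⟩ : ∃ s : ℝ, (s < η ∧ ∀ p ∈ P, s < σ p / 2) ∧ 0 < s :=
    (((evl h0).and ((eventually_all_finite hP).2 fun p _ =>
      evl (half_pos (hσ p)))).and self_mem_nhdsWithin).exists
  refine ⟨s, ⟨h5, by linarith⟩, fun B M hB hM hM' x y hxy hJ => ?_⟩
  set Q : ℂ → Set ℂ := fun p => closedBall p s ∪ κ p with hQ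
  have hQ1 : ∀ p, Q p ⊆ closedBall p η := fun p =>
    union_subset (closedBall_subset_closedBall h3.le) ((k3 p).trans inter_subset_right)
  have hD : ∀ p, nb B (Q p) ⊆ closedBall p (η + s / 100) := fun p =>
    nb_sub hB (by positivity) (hQ1 p)
  have hfar : ∀ p ∈ P, ∀ z ∈ M, z ∉ closedBall p (η + s / 100) := fun p hp z hz hz' => by
    have a := mem_sphere.1 (hPs hp)
    have b := mem_closedBall.1 (hM' hz)
    have c := mem_closedBall'.1 hz'
    have d := dist_triangle p z 0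
    linarith
  set E : Set (Set ℂ) := {K ∈ B | ¬ (K ∩ (N ∪ M)).Nonempty ∧ ∀ p ∈ P, ¬ (K ∩ Q p).Nonempty}
    with hE
  have hblob : ∀ p ∈ P, ∀ K ∈ B, (K ∩ (N ∪ M)).Nonempty → (K ∩ Q p).Nonempty →
      (K ∩ κ p).Nonempty := by
    rintro p hp K hK ⟨u, hu, hu'⟩ ⟨v, hv, hv' | hv'⟩
    · have a := blob_sub hB hK ⟨v, hv, hv'⟩ hu
      rcases hu' with hu' | hu'
      · exact ⟨u, hu, k4 p ⟨hu', closedBall_subset_closedBall (by linarith [h4 p hp]) a⟩⟩
      · exact absurd (closedBall_subset_closedBall (by linarith) a) (hfar p hp u hu')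
    · exact ⟨v, hv, hv'⟩
  have hint : ∀ p ∈ P, nb B (N ∪ M) ∩ nb B (Q p) = nb B (κ p) := by
    intro p hp
    refine Subset.antisymm ?_ (subset_inter ?_ ?_)
    · rintro z ⟨hz | ⟨K, hK, hz⟩, hz'⟩
      · rcases hz' with (hz' | hz') | ⟨K, hK, hz'⟩
        · rcases hz with hz | hz
          · exact Or.inl (k4 p ⟨hz, closedBall_subset_closedBall (by linarith [h4 p hp]) hz'⟩)
          · exact absurd (closedBall_subset_closedBall (by linarith) hz') (hfar p hp z hz)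
        · exact Or.inl hz'
        · exact Or.inr ⟨K, ⟨hK.1, hblob p hp K hK.1 ⟨z, hz', hz⟩ hK.2⟩, hz'⟩
      · exact Or.inr ⟨K, ⟨hK.1, hblob p hp K hK.1 hK.2 (meets hB hK.1 hz hz')⟩, hz⟩
    · have a : κ p ⊆ N ∪ M := ((k3 p).trans inter_subset_left).trans subset_union_left
      exact union_subset_union a (sUnion_subset_sUnion fun K hK =>
        ⟨hK.1, hK.2.mono (inter_subset_inter_right _ a)⟩)
    · exact union_subset_union subset_union_right (sUnion_subset_sUnion fun K hK =>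
        ⟨hK.1, hK.2.mono (inter_subset_inter_right _ subset_union_right)⟩)
  have key := hRJAN.1 (nb B (N ∪ M)) ((fun p => nb B (Q p)) '' P ∪ E) x y
    (nb_compact hB (hN.union hM)) ((hP.image _).union (hB.fin.subset (sep_subset _ _)))
    ?_ ?_ ?_ (hJ.mono (compl_subset_compl.2 (union_subset_union_right _
      (sUnion_subset_sUnion (sep_subset _ _))))) ?_
  · refine key.mono (compl_subset_compl.2 ?_)
    rintro z ((hz | ⟨K, hK, hz⟩) | hz)
    · exact Or.inl (Or.inl hz)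
    · by_cases a : (K ∩ (N ∪ M)).Nonempty
      · exact Or.inl (Or.inr ⟨K, ⟨hK, a⟩, hz⟩)
      by_cases b : ∀ p ∈ P, ¬ (K ∩ Q p).Nonempty
      · exact Or.inr ⟨K, Or.inr ⟨hK, a, b⟩, hz⟩
      · push Not at b
        obtain ⟨p, hp, b⟩ := b
        exact Or.inr ⟨_, Or.inl ⟨p, hp, rfl⟩, Or.inr ⟨K, ⟨hK, b⟩, hz⟩⟩
    · obtain ⟨p, hp, hz⟩ := mem_iUnion₂.1 hz
      exact Or.inr ⟨_, Or.inl ⟨p, hp, rfl⟩, Or.inl (Or.inl hz)⟩
  · rintro K (⟨p, -, rfl⟩ | hK)
    · exact nb_compact hB ((isCompact_closedBall p s).union (k1 p))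
    · exact hB.cpt K hK.1
  · rintro K (⟨p, hp, rfl⟩ | hK) K' (⟨p', hp', rfl⟩ | hK') hne
    · have := h2 p hp p' hp' fun h => hne (by rw [h])
      exact (closedBall_disjoint_closedBall (by linarith)).mono (hD p) (hD p')
    · exact disjoint_left.2 fun z hz hz' => hK'.2.2 p hp (meets hB hK'.1 hz' hz)
    · exact disjoint_left.2 fun z hz hz' => hK.2.2 p' hp' (meets hB hK.1 hz hz')
    · exact hB.disj hK.1 hK'.1 hne
  · rintro K (⟨p, hp, rfl⟩ | hK)
    · rw [hint p hp]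
      exact nb_conn hB (k2 p)
    · rw [eq_empty_of_forall_notMem (s := nb B (N ∪ M) ∩ K) fun z hz =>
        hK.2.1 (meets hB hK.1 hz.2 hz.1)]
      exact isPreconnected_empty
  · rintro K (⟨p, hp, rfl⟩ | hK)
    · exact (hRJAN.2.2 p x y (1 / 100) (not_le.2 (hxy p hp).1) (not_le.2 (hxy p hp).2)).mono
        (compl_subset_compl.2 ((hD p).trans (closedBall_subset_closedBall (by linarith))))
    · exact hJ.mono (compl_subset_compl.2 ((subset_sUnion_of_mem hK.1).trans subset_union_right))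

end Pool.Agent.P.MP_d66c6d_pr
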