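import Pool.Agent.P.MP_d66c6d_pr.R.Iface

/-! Step RPHB of the carpet project. -/

namespace Pool.Agent.P.MP_d66c6d_pr

open MeasureTheory ProbabilityTheory Set Metric Filter Topology
open scoped ENNReal

theorem p_RPHB :
    S_RPHB := by
  intro O γ a b hab h0 h1 H
  obtain ⟨d, hd, hu⟩ : ∃ d > (0 : ℝ), ∀ s t : unitInterval, |(s : ℝ) - t| ≤ d →
      dist (γ s) (γ t) < b - a := by
    obtain ⟨d, hd, h⟩ := Metric.uniformContinuous_iff.1
      (CompactSpace.uniformContinuous_of_continuous γ.continuous) (b - a) (sub_pos.2 hab)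
    refine ⟨d / 2, by positivity, fun s t hst => h ?_⟩
    rw [Subtype.dist_eq, Real.dist_eq]; linarith
  have hb : ∀ s t : unitInterval, |(s : ℝ) - t| ≤ d → γ t ∈ closedBall (0 : ℂ) a →
      γ s ∈ closedBall (0 : ℂ) b := by
    intro s t hst ht
    have := hu s t hst
    rw [mem_closedBall] at ht ⊢
    linarith [dist_triangle (γ s) (γ t) 0]
  have piece : ∀ s t : unitInterval, s ≤ t → (∀ w ∈ Icc s t, γ w ∈ closedBall (0 : ℂ) b) →
      JoinedIn ((range γ ∩ closedBall 0 b) ∪ O) (γ s) (γ t) := by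
    intro s t hst h
    obtain ⟨π, p0, p1, pr⟩ := exists_br_piece γ hst
    refine joinedIn_iff_br.2 ⟨π, p0, p1, ?_⟩
    rw [pr]
    rintro _ ⟨w, hw, rfl⟩
    exact Or.inl ⟨mem_range_self w, h w hw⟩
  have helper : ∀ s : unitInterval, γ s ∉ closedBall (0 : ℂ) a →
      (γ s ∈ closedBall (0 : ℂ) b ∨ s = 1) → ∃ u ≤ s, γ u ∈ closedBall (0 : ℂ) a ∧
        JoinedIn ((range γ ∩ closedBall 0 b) ∪ O) (γ u) (γ s) := by
    intro s hs hs'
    have hK : IsCompact {u : unitInterval | u ≤ s ∧ γ u ∈ closedBall (0 : ℂ) a} :=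
      (isClosed_Iic.inter (isClosed_closedBall.preimage γ.continuous)).isCompact
    obtain ⟨u0, ⟨hu0, hu0a⟩, hmax⟩ := hK.exists_isGreatest ⟨0, unitInterval.nonneg', h0⟩
    have hlt : (u0 : ℝ) < s := by
      rcases lt_or_eq_of_le hu0 with h | h
      · exact h
      · exact absurd (h ▸ hu0a) hs
    let u : unitInterval := ⟨min (s : ℝ) (u0 + d), le_min s.2.1 (by linarith [u0.2.1]),
      (min_le_left _ _).trans s.2.2⟩
    have hu1 : (u0 : ℝ) < u := lt_min hlt (by linarith)
    have hu2 : u ≤ s := min_le_left (s : ℝ) _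
    have hu3 : (u : ℝ) ≤ u0 + d := min_le_right _ _
    have hin : ∀ w ∈ Icc u0 u, γ w ∈ closedBall (0 : ℂ) b := by
      intro w hw
      have a1 : (u0 : ℝ) ≤ w := hw.1
      have a2 : (w : ℝ) ≤ u := hw.2
      exact hb w u0 (by rw [abs_le]; constructor <;> linarith) hu0a
    refine ⟨u0, hu0, hu0a, (piece u0 u hu1.le hin).trans ?_⟩
    refine (H u s hu2 ?_ (hin u ⟨hu1.le, le_rfl⟩) hs').mono subset_union_right
    rw [Set.disjoint_left]
    rintro _ ⟨w, hw, rfl⟩ hwa
    have a1 : (w : ℝ) ≤ u0 := hmax ⟨hw.2, hwa⟩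
    have a2 : (u : ℝ) ≤ w := hw.1
    linarith
  have main : ∀ k : ℕ, ∀ s : unitInterval, (s : ℝ) ≤ k * d → γ s ∈ closedBall (0 : ℂ) a →
      JoinedIn ((range γ ∩ closedBall 0 b) ∪ O) (γ 0) (γ s) := by
    intro k
    induction k with
    | zero =>
      intro s hs _
      have : s = 0 := Subtype.ext (le_antisymm (by simpa using hs) s.2.1)
      subst this
      exact JoinedIn.refl (Or.inl ⟨mem_range_self _, closedBall_subset_closedBall hab.le h0⟩)
    | succ k ih =>
      intro s hs hsa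
      push_cast at hs
      have hk : (0 : ℝ) ≤ k * d := by positivity
      let t : unitInterval := ⟨max ((s : ℝ) - d) 0, le_max_right _ _,
        max_le (by linarith [s.2.2]) zero_le_one⟩
      have t1 : t ≤ s := max_le (by linarith : (s : ℝ) - d ≤ s) s.2.1
      have t2 : (s : ℝ) - d ≤ t := le_max_left _ _
      have t3 : (t : ℝ) ≤ k * d := max_le (by linarith) hk
      have hin : ∀ w ∈ Icc t s, γ w ∈ closedBall (0 : ℂ) b := by
        intro w hw
        have a1 : (t : ℝ) ≤ w := hw.1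
        have a2 : (w : ℝ) ≤ s := hw.2
        exact hb w s (by rw [abs_le]; constructor <;> linarith) hsa
      refine JoinedIn.trans ?_ (piece t s t1 hin)
      by_cases hta : γ t ∈ closedBall (0 : ℂ) a
      · exact ih t t3 hta
      · obtain ⟨u, hut, hua, hj⟩ := helper t hta (Or.inl (hin t ⟨le_rfl, t1⟩))
        exact (ih u (le_trans (show (u : ℝ) ≤ t from hut) t3) hua).trans hj
  obtain ⟨u, _, hua, hj⟩ := helper 1 h1 (Or.inr rfl)
  obtain ⟨k, hk⟩ := exists_nat_ge (1 / d)
  rw [div_le_iff₀ hd] at hk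
  exact (main k u (u.2.2.trans hk) hua).trans hj

end Pool.Agent.P.MP_d66c6d_pr
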