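import Pool.Agent.P.MP_d66c6d_pr.R.Iface
import Pool.Agent.P.MP_d66c6d_pr.B.Iface
import Pool.Agent.P.MP_d66c6d_pr.F.Iface

/-! Step RROOT of the carpet project. -/

namespace Pool.Agent.P.MP_d66c6d_pr

open MeasureTheory ProbabilityTheory Set Metric Filter Topology
open scoped ENNReal

namespace RrootA

/-- A closed path that leaves a closed set does so for a set of roots of positive measure. -/
theorem roots (hCUT : S_CUT) {B : Set ℂ} (hB : IsClosed B) {N : Set KC} (t : ℝ) (γ : Br)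
    (hγ : γ 1 = γ 0) (hN : trB γ ∈ N) (hout : trB γ ∉ inK B) :
    ∫⁻ s in Ioo (0 : ℝ) 1, {p : TP | p.2 0 ∉ B ∧ trB p.2 ∈ N}.indicator 1 (t, rot s γ) ≠ 0 := by
  obtain ⟨_, ⟨s0, rfl⟩, hs0⟩ := not_subset.1 hout
  have hU : IsOpen {s : ℝ | γ (projIcc 0 1 zero_le_one s) ∈ Bᶜ} :=
    hB.isOpen_compl.preimage (γ.continuous.comp continuous_projIcc)
  have hne : ({s : ℝ | γ (projIcc 0 1 zero_le_one s) ∈ Bᶜ} ∩ Ioo 0 1).Nonempty := by
    refine mem_closure_iff.1 (?_ : (s0 : ℝ) ∈ closure (Ioo 0 1)) _ hU ?_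
    · rw [closure_Ioo zero_ne_one]; exact s0.2
    · change γ _ ∈ Bᶜ
      rwa [projIcc_val]
  have hO := hU.inter (isOpen_Ioo (a := (0 : ℝ)) (b := 1))
  refine ne_of_gt (lt_of_lt_of_le (hO.measure_pos volume hne) ?_)
  refine le_trans ?_ (lintegral_mono_set
    (inter_subset_right (s := {s : ℝ | γ (projIcc 0 1 zero_le_one s) ∈ Bᶜ})))
  rw [← setLIntegral_one]
  refine setLIntegral_mono' hO.measurableSet fun s hs => ?_
  obtain ⟨-, -, h1, h2, -⟩ := hCUT.2.2.2.2.2.2.2.2 s hs.2 γ hγ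
  have h3 : trB (rot s γ) = trB γ := TopologicalSpace.NonemptyCompacts.ext h1
  have h4 : sub 0 s γ 1 = γ (projIcc 0 1 zero_le_one s) := by simp [sub_apply]
  rw [indicator_of_mem]
  · exact le_rfl
  · exact ⟨by change rot s γ 0 ∉ B; rw [h2, h4]; exact hs.1, by change trB (rot s γ) ∈ N; rwa [h3]⟩

theorem null (hLOOP : S_LOOP) (hREV : S_REV) (hCUT : S_CUT) {ν : Measure Br} (hν : IsBridge ν)
    {B : Set ℂ} (hB : IsClosed B) {N : Set KC} (hN : MeasurableSet N)
    (h0 : LM ν {p : TP | p.2 0 ∉ B ∧ trB p.2 ∈ N} = 0) : muK ν (N ∩ (inK B)ᶜ) = 0 := by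
  have := hν.prob
  have hE : MeasurableSet {p : TP | p.2 0 ∉ B ∧ trB p.2 ∈ N} :=
    ((Measurable.evalBr measurable_snd measurable_const) hB.measurableSet.compl).inter
      ((Measurable.trB' measurable_snd) hN)
  set Φ : TP → ℝ≥0∞ := {p : TP | p.2 0 ∉ B ∧ trB p.2 ∈ N}.indicator 1 with hΦ
  have hm : Measurable Φ := measurable_one.indicator hE
  obtain ⟨l1, l2⟩ := hLOOP ν hν Φ hm
  rw [← lintegral_map hm measurable_lp, hΦ, lintegral_indicator_one hE] at l1
  have hm2 : Measurable fun p : TP => (ENNReal.ofReal p.1)⁻¹ * Φ p :=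
    (measurable_fst.ennreal_ofReal.inv).mul hm
  have h1 := (lintegral_eq_zero_iff (measurable_grM ν measurable_id measurable_id
    (Φ := fun _ p => (ENNReal.ofReal p.1)⁻¹ * Φ p) (hm2.comp measurable_snd))).1
    (l1.symm.trans h0)
  have h2 : ∫⁻ x, ∫⁻ p, Φ p ∂grM ν x x = 0 := by
    refine (lintegral_congr_ae (h1.mono fun x hx => ?_)).trans lintegral_zero
    refine (lintegral_eq_zero_iff hm).2 (((lintegral_eq_zero_iff hm2).1 hx).mono fun p hp => ?_)
    exact (mul_eq_zero.1 hp).resolve_left (ENNReal.inv_ne_zero.2 ENNReal.ofReal_ne_top)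
  have hm3 : Measurable fun l : Lp => ENNReal.ofReal (lp l).1 *
      ∫⁻ s in Ioo (0 : ℝ) 1, Φ ((lp l).1, rot s (lp l).2) := by
    refine Measurable.mul (by fun_prop) ?_
    refine Measurable.lintegral_prod_right'
      (f := fun q : Lp × ℝ => Φ ((lp q.1).1, rot q.2 (lp q.1).2)) (hm.comp ?_)
    fun_prop
  have h3 := (lintegral_eq_zero_iff hm3).1 (l2.trans h2)
  rw [muK, Measure.map_apply (by fun_prop) (hN.inter (isClosed_inK hB).measurableSet.compl),
    measure_eq_zero_iff_ae_notMem]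
  filter_upwards [h3, (hREV.2 ν hν).2.2.2.2.2.2.2] with l hl hl' hmem
  refine roots hCUT hB (lp l).1 (lp l).2 (hl'.2.2.trans hl'.2.1.symm) hmem.1 hmem.2 ?_
  exact (mul_eq_zero.1 hl).resolve_left (ENNReal.ofReal_pos.2 hl'.1).ne'

end RrootA

open RrootA in
theorem p_RROOT (hLOOP : S_LOOP) (hMUK : S_MUK) (hREV : S_REV) (hCUT : S_CUT) :
    S_RROOT := by
  intro ν hν ρ m hm hac
  have hB : IsClosed (closedBall (0 : ℂ) ρ) := isClosed_closedBall
  have hO : MeasurableSet {p : TP | p.2 0 ∉ closedBall (0 : ℂ) ρ} :=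
    (Measurable.evalBr measurable_snd measurable_const) hB.measurableSet.compl
  have ht : Measurable fun p : TP => trB p.2 := by fun_prop
  set L : Measure TP := (LM ν).restrict {p : TP | p.2 0 ∉ closedBall (0 : ℂ) ρ} with hL
  have hle : L.map (fun p => trB p.2) ≤ muK ν := by
    refine (Measure.map_mono Measure.restrict_le_self ht).trans (le_of_eq ?_)
    rw [LM, Measure.map_map ht measurable_lp]
    rfl
  have := (hMUK ν hν).2.1
  have : SigmaFinite (L.map fun p => trB p.2) := Measure.sigmaFinite_of_le _ hle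
  have hac' : m ≪ L.map fun p => trB p.2 := by
    refine hac.trans (Measure.AbsolutelyContinuous.mk fun N hN h0 => ?_)
    rw [Measure.restrict_apply hN]
    refine null hLOOP hREV hCUT hν hB hN ?_
    rw [Measure.map_apply ht hN, hL, Measure.restrict_apply (ht hN), inter_comm] at h0
    exact h0
  have hf := Measure.measurable_rnDeriv m (L.map fun p => trB p.2)
  have hmap : (L.withDensity fun p => m.rnDeriv (L.map fun p => trB p.2) (trB p.2)).map
      (fun p => trB p.2) = m := by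
    ext N hN
    rw [Measure.map_apply ht hN, withDensity_apply _ (ht hN),
      ← setLIntegral_map hN hf ht, ← withDensity_apply _ hN,
      Measure.withDensity_rnDeriv_eq _ _ hac']
  have hL1 := withDensity_absolutelyContinuous L
    fun p => m.rnDeriv (L.map fun p => trB p.2) (trB p.2)
  have hL2 : L ≪ LM ν := Measure.restrict_le_self.absolutelyContinuous
  refine ⟨_, ⟨?_⟩, hL1.trans hL2, hmap, hL1.ae_le ?_⟩
  · rw [← preimage_univ (f := fun p : TP => trB p.2),
      ← Measure.map_apply ht MeasurableSet.univ, hmap]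
    exact measure_lt_top _ _
  · have h1 : ∀ᵐ p ∂LM ν, 0 < p.1 ∧ p.2 1 = p.2 0 := by
      rw [LM, ae_map_iff measurable_lp.aemeasurable]
      · filter_upwards [(hREV.2 ν hν).2.2.2.2.2.2.2] with l hl
        exact ⟨hl.1, hl.2.2.trans hl.2.1.symm⟩
      · exact (measurableSet_lt measurable_const measurable_fst).inter
          (measurableSet_eq_fun (Measurable.evalBr measurable_snd measurable_const)
            (Measurable.evalBr measurable_snd measurable_const))
    filter_upwards [hL2.ae_le h1, ae_restrict_mem hO] with p h2 h3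
    exact ⟨h2.1, h3, h2.2 ▸ h3⟩

end Pool.Agent.P.MP_d66c6d_pr
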