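import Pool.Agent.P.MP_d66c6d_pr.R.Iface

/-! Step RSEC of the carpet project. -/

namespace Pool.Agent.P.MP_d66c6d_pr

open MeasureTheory ProbabilityTheory Set Metric Filter Topology
open scoped ENNReal

namespace RsecA

open Complex in
theorem polar (z : ℂ) (θ : ℝ) :
    ∃ φ ∈ Ico θ (θ + 2 * Real.pi), z = (‖z‖ : ℂ) * exp ((φ : ℂ) * I) := by
  have hp : (0 : ℝ) < 2 * Real.pi := by positivity
  refine ⟨toIcoMod hp θ (arg z), toIcoMod_mem_Ico hp θ _, ?_⟩
  have h1 : toIcoMod hp θ (arg z) = arg z - (toIcoDiv hp θ (arg z) : ℝ) * (2 * Real.pi) := by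
    rw [← zsmul_eq_mul]; rfl
  rw [h1]
  have h2 : ((arg z - (toIcoDiv hp θ (arg z) : ℝ) * (2 * Real.pi) : ℝ) : ℂ) * I =
      (arg z : ℂ) * I + ((-toIcoDiv hp θ (arg z) : ℤ) : ℂ) * (2 * Real.pi * I) := by
    push_cast; ring
  rw [h2, exp_add, exp_int_mul_two_pi_mul_I, mul_one, norm_mul_exp_arg_mul_I]

/-- The strip. -/
def St (r a θ : ℝ) : Set ℂ :=
  {w | Real.log r < w.re ∧ w.re < Real.log 3 ∧ θ + a < w.im ∧ w.im < θ + 2 * Real.pi - a}

/-- The slit annulus. -/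
def Sec (r a θ : ℝ) : Set ℂ := Complex.exp '' St r a θ

theorem st_open (r a θ : ℝ) : IsOpen (St r a θ) :=
  (isOpen_lt continuous_const Complex.continuous_re).inter
    ((isOpen_lt Complex.continuous_re continuous_const).inter
      ((isOpen_lt continuous_const Complex.continuous_im).inter
        (isOpen_lt Complex.continuous_im continuous_const)))

theorem st_convex (r a θ : ℝ) : Convex ℝ (St r a θ) :=
  (convex_halfSpace_re_gt _).inter ((convex_halfSpace_re_lt _).inter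
    ((convex_halfSpace_im_gt _).inter (convex_halfSpace_im_lt _)))

theorem sec_open (r a θ : ℝ) : IsOpen (Sec r a θ) := Complex.isOpenMap_exp _ (st_open r a θ)

theorem sec_conn (r a θ : ℝ) : IsPreconnected (Sec r a θ) :=
  (st_convex r a θ).isPreconnected.image _ Complex.continuous_exp.continuousOn

theorem sec_norm {r a θ : ℝ} (hr : 0 < r) {z : ℂ} (hz : z ∈ Sec r a θ) : r < ‖z‖ ∧ ‖z‖ < 3 := by
  obtain ⟨w, ⟨h1, h2, -, -⟩, rfl⟩ := hz
  rw [Complex.norm_exp]
  exact ⟨(Real.log_lt_iff_lt_exp hr).1 h1, (Real.lt_log_iff_exp_lt (by norm_num)).1 h2⟩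

theorem mem_sec {r a θ ρ ψ : ℝ} (hr : 0 < r) (h1 : r < ρ) (h2 : ρ < 3) (h3 : θ + a < ψ)
    (h4 : ψ < θ + 2 * Real.pi - a) : (ρ : ℂ) * Complex.exp ((ψ : ℂ) * Complex.I) ∈ Sec r a θ := by
  have hρ : 0 < ρ := hr.trans h1
  refine ⟨(Real.log ρ : ℂ) + (ψ : ℂ) * Complex.I, ⟨?_, ?_, ?_, ?_⟩, ?_⟩
  · simpa [-Complex.natCast_log] using Real.log_lt_log hr h1
  · simpa [-Complex.natCast_log] using Real.log_lt_log hρ h2
  · simpa [-Complex.natCast_log] using h3
  · simpa [-Complex.natCast_log] using h4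
  · rw [Complex.exp_add, ← Complex.ofReal_exp, Real.exp_log hρ]

theorem sec_re {r a θ : ℝ} (ha : 0 ≤ a) {z : ℂ} (hz : z ∈ Sec r a θ) :
    (z * Complex.exp (((-θ : ℝ) : ℂ) * Complex.I)).re < ‖z‖ * Real.cos a := by
  obtain ⟨w, ⟨-, -, h3, h4⟩, rfl⟩ := hz
  rw [← Complex.exp_add, Complex.exp_re, Complex.norm_exp]
  have e1 : (w + ((-θ : ℝ) : ℂ) * Complex.I).re = w.re := by simp
  have e2 : (w + ((-θ : ℝ) : ℂ) * Complex.I).im = w.im - θ := by simp; ring
  rw [e1, e2]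
  refine mul_lt_mul_of_pos_left ?_ (Real.exp_pos _)
  rcases le_total (w.im - θ) Real.pi with h | h
  · exact Real.cos_lt_cos_of_nonneg_of_le_pi ha h (by linarith)
  · rw [← Real.cos_two_pi_sub]
    exact Real.cos_lt_cos_of_nonneg_of_le_pi ha (by linarith) (by linarith)

theorem ball_meets {s θ : ℝ} (h0 : 0 < s) (h1 : s ≤ 1 / 100) {p : ℂ} (hp : ‖p‖ = 7 / 5) :
    (Sec (7 / 5 + s / 4) (s / 100) θ ∩ ball p (s / 2)).Nonempty := by
  obtain ⟨φ, ⟨a1, a2⟩, hφ⟩ := polar p θ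
  have hpi := Real.pi_gt_three
  obtain ⟨ψ, b1, b2, b3⟩ : ∃ ψ : ℝ, θ + s / 100 < ψ ∧ ψ < θ + 2 * Real.pi - s / 100 ∧
      |ψ - φ| ≤ s / 50 := by
    rcases le_total φ (θ + Real.pi) with h | h
    · exact ⟨φ + s / 50, by linarith, by linarith, by rw [abs_le]; constructor <;> linarith⟩
    · exact ⟨φ - s / 50, by linarith, by linarith, by rw [abs_le]; constructor <;> linarith⟩
  refine ⟨((7 / 5 + 5 * s / 16 : ℝ) : ℂ) * Complex.exp ((ψ : ℂ) * Complex.I),
    mem_sec (by linarith) (by linarith) (by linarith) b1 b2, ?_⟩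
  rw [mem_ball, dist_eq_norm, hφ, hp]
  have e : ((7 / 5 + 5 * s / 16 : ℝ) : ℂ) * Complex.exp ((ψ : ℂ) * Complex.I) -
      ((7 / 5 : ℝ) : ℂ) * Complex.exp ((φ : ℂ) * Complex.I) =
      ((5 * s / 16 : ℝ) : ℂ) * Complex.exp ((ψ : ℂ) * Complex.I) +
      ((7 / 5 : ℝ) : ℂ) * (Complex.exp ((φ : ℂ) * Complex.I) *
        (Complex.exp (Complex.I * ((ψ - φ : ℝ) : ℂ)) - 1)) := by
    rw [mul_sub, ← Complex.exp_add]
    have : (φ : ℂ) * Complex.I + Complex.I * ((ψ - φ : ℝ) : ℂ) = (ψ : ℂ) * Complex.I := by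
      push_cast; ring
    rw [this]; push_cast; ring
  rw [e]
  refine (norm_add_le _ _).trans_lt ?_
  have n1 := Real.norm_exp_I_mul_ofReal_sub_one_le (x := ψ - φ)
  rw [Real.norm_eq_abs] at n1
  simp only [norm_mul, Complex.norm_real, Complex.norm_exp_ofReal_mul_I, Real.norm_eq_abs]
  rw [abs_of_pos (by linarith : (0 : ℝ) < 5 * s / 16), abs_of_pos (by norm_num : (0 : ℝ) < 7 / 5)]
  linarith

theorem dist_ray {y p : ℂ} {t : ℝ} (ht : 1 ≤ t) (h : ‖p‖ ≤ ‖y‖) :
    dist y p ≤ dist ((t : ℂ) * y) p := by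
  rw [dist_eq_norm, dist_eq_norm]
  have h2 : ‖p‖ ^ 2 ≤ ‖y‖ ^ 2 := pow_le_pow_left₀ (norm_nonneg _) h 2
  refine (pow_le_pow_iff_left₀ (norm_nonneg _) (norm_nonneg _) two_ne_zero).1 ?_
  simp only [Complex.sq_norm, Complex.normSq_apply, Complex.sub_re, Complex.sub_im,
    Complex.re_ofReal_mul, Complex.im_ofReal_mul] at h2 ⊢
  have h3 : 2 * (y.re * p.re + y.im * p.im) ≤ 2 * (y.re * y.re + y.im * y.im) := by
    nlinarith [sq_nonneg (y.re - p.re), sq_nonneg (y.im - p.im)]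
  have h4 : 0 ≤ y.re * y.re + y.im * y.im := by nlinarith [sq_nonneg y.re, sq_nonneg y.im]
  have h5 : 0 ≤ (t - 1) * ((t + 1) * (y.re * y.re + y.im * y.im) -
      2 * (y.re * p.re + y.im * p.im)) :=
    mul_nonneg (by linarith) (by nlinarith)
  nlinarith

theorem not_sec {r a θ φ ρ w : ℝ} (ha : 0 < a) (ha1 : a ≤ 1) (hρ : 1 ≤ ρ) (h : |φ - θ| ≤ a / 2)
    (hw : w ≤ (Real.cos (a / 2) - Real.cos a) / 2) {z : ℂ}
    (hz : dist z ((ρ : ℂ) * Complex.exp ((φ : ℂ) * Complex.I)) < w) : z ∉ Sec r a θ := by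
  intro hs
  have h1 := sec_re ha.le hs
  set y : ℂ := (ρ : ℂ) * Complex.exp ((φ : ℂ) * Complex.I) with hy
  set e : ℂ := Complex.exp (((-θ : ℝ) : ℂ) * Complex.I) with he
  have ne : ‖e‖ = 1 := Complex.norm_exp_ofReal_mul_I _
  have ny : ‖y‖ = ρ := by
    rw [hy, norm_mul, Complex.norm_exp_ofReal_mul_I, Complex.norm_real, Real.norm_eq_abs,
      abs_of_pos (by linarith), mul_one]
  have h2 : (y * e).re = ρ * Real.cos (φ - θ) := by
    rw [hy, he, mul_assoc, ← Complex.exp_add, Complex.re_ofReal_mul]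
    have : (φ : ℂ) * Complex.I + ((-θ : ℝ) : ℂ) * Complex.I = ((φ - θ : ℝ) : ℂ) * Complex.I := by
      push_cast; ring
    rw [this, Complex.exp_ofReal_mul_I_re]
  rw [dist_eq_norm] at hz
  have h3 : |((z - y) * e).re| ≤ ‖z - y‖ := by
    refine (Complex.abs_re_le_norm _).trans ?_
    rw [norm_mul, ne, mul_one]
  have h4 : ‖z‖ ≤ ρ + ‖z - y‖ := by
    have := norm_add_le y (z - y)
    rwa [add_sub_cancel, ny] at this
  have h5 : (z * e).re = (y * e).re + ((z - y) * e).re := by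
    rw [← Complex.add_re]; congr 1; ring
  have hpi := Real.pi_gt_three
  have h6 : Real.cos (a / 2) ≤ Real.cos (φ - θ) := by
    rw [← Real.cos_abs (φ - θ)]
    exact Real.cos_le_cos_of_nonneg_of_le_pi (abs_nonneg _) (by linarith) h
  have h7 : 0 ≤ Real.cos a := Real.cos_nonneg_of_mem_Icc ⟨by linarith, by linarith⟩
  have h8 := Real.cos_le_one a
  have h9 : Real.cos a < Real.cos (a / 2) :=
    Real.cos_lt_cos_of_nonneg_of_le_pi (by linarith) (by linarith) (by linarith)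
  have h10 := (abs_le.1 h3).1
  have h11 : ‖z‖ * Real.cos a ≤ ρ * Real.cos a + ‖z - y‖ := by
    nlinarith [norm_nonneg (z - y)]
  nlinarith

end RsecA

open RsecA in
theorem p_RSEC :
    S_RSEC := by
  intro P s R _ hP ⟨h0, h1⟩
  have hpi := Real.pi_gt_three
  have hn : ∀ p ∈ P, ‖p‖ = 7 / 5 := fun p hp => by simpa using hP hp
  have h9 : Real.cos (s / 100) < Real.cos (s / 100 / 2) :=
    Real.cos_lt_cos_of_nonneg_of_le_pi (by linarith) (by linarith) (by linarith)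
  obtain ⟨J, hJ⟩ := exists_nat_gt (2 * Real.pi / (s / 200))
  refine ⟨J, fun i => Sec (7 / 5 + s / 4) (s / 100) ((i : ℕ) * (s / 200)) ∪ ⋃ p ∈ P, ball p (s / 2),
    min (s / 4) ((Real.cos (s / 100 / 2) - Real.cos (s / 100)) / 2),
    lt_min (by linarith) (by linarith), fun i => ⟨?_, ?_, ?_, ?_, ?_⟩, ?_⟩
  · exact (sec_open _ _ _).union (isOpen_biUnion fun p _ => isOpen_ball)
  · obtain ⟨x, hx, -⟩ := ball_meets (θ := (i : ℕ) * (s / 200)) h0 h1 (p := ((7 / 5 : ℝ) : ℂ))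
      (by rw [Complex.norm_real]; norm_num)
    refine isPreconnected_of_forall x fun y hy => ?_
    rcases hy with hy | hy
    · exact ⟨_, subset_union_left, hx, hy, sec_conn _ _ _⟩
    · obtain ⟨p, hp, hy⟩ := mem_iUnion₂.1 hy
      refine ⟨Sec (7 / 5 + s / 4) (s / 100) ((i : ℕ) * (s / 200)) ∪ ball p (s / 2),
        union_subset_union_right _ (subset_biUnion_of_mem (u := fun p => ball p (s / 2)) hp),
        Or.inl hx, Or.inr hy, ?_⟩
      exact IsPreconnected.union' (ball_meets h0 h1 (hn p hp)) (sec_conn _ _ _)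
        (convex_ball _ _).isPreconnected
  · exact fun p hp => Or.inr (mem_iUnion₂.2 ⟨p, hp, mem_ball_self (by linarith)⟩)
  · rintro z (hz | hz)
    · have := sec_norm (by linarith) hz
      exact ⟨by simpa using this.2, by simp; linarith [this.1]⟩
    · obtain ⟨p, hp, hz⟩ := mem_iUnion₂.1 hz
      rw [mem_ball, dist_eq_norm] at hz
      have := abs_lt.1 ((abs_norm_sub_norm_le z p).trans_lt hz)
      rw [hn p hp] at this
      exact ⟨by simp; linarith [this.2], by simp; linarith [this.1]⟩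
  · rintro z ⟨hz | hz, h2⟩
    · have := sec_norm (by linarith) hz
      rw [mem_closedBall_zero_iff] at h2
      linarith [this.1]
    · obtain ⟨p, hp, hz⟩ := mem_iUnion₂.1 hz
      exact mem_iUnion₂.2 ⟨p, hp, by rw [mem_ball] at hz; rw [mem_closedBall]; linarith⟩
  · intro y hy hs
    have ny : ‖y‖ = 7 / 5 + s / 4 := by simpa using hy
    obtain ⟨φ, ⟨a1, a2⟩, hφ⟩ := polar y 0
    have hs2 : 0 < s / 200 := by linarith
    have hi : ⌊φ / (s / 200)⌋₊ < J := by
      rw [Nat.floor_lt (div_nonneg a1 hs2.le)]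
      refine lt_trans ?_ hJ
      exact div_lt_div_of_pos_right (by linarith) hs2
    have b1 : (⌊φ / (s / 200)⌋₊ : ℝ) * (s / 200) ≤ φ :=
      (le_div_iff₀ hs2).1 (Nat.floor_le (div_nonneg a1 hs2.le))
    have b2 : φ < ((⌊φ / (s / 200)⌋₊ : ℝ) + 1) * (s / 200) :=
      (div_lt_iff₀ hs2).1 (Nat.lt_floor_add_one _)
    refine ⟨⟨_, hi⟩, ⟨fun t => ((1 + (t : ℝ) * |R| : ℝ) : ℂ) * y, by fun_prop⟩, by simp, ?_, ?_⟩
    · simp only [ContinuousMap.coe_mk, mem_ball_zero_iff, norm_mul, Complex.norm_real, ny,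
        Real.norm_eq_abs, not_lt]
      have := le_abs_self R
      have h3 := abs_nonneg R
      rw [show ((1 : unitInterval) : ℝ) = 1 from rfl, abs_of_pos (by linarith)]
      nlinarith
    · rw [Set.disjoint_left]
      intro z hz
      obtain ⟨_, ⟨t, rfl⟩, hz⟩ := mem_thickening_iff.1 hz
      simp only [ContinuousMap.coe_mk] at hz
      have ht : 1 ≤ 1 + (t : ℝ) * |R| := by nlinarith [t.2.1, abs_nonneg R]
      set τ : ℝ := 1 + (t : ℝ) * |R|
      have hz1 := hz.trans_le (min_le_left _ _)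
      rintro ((h | h) | h)
      · refine not_sec (φ := φ) (ρ := τ * (7 / 5 + s / 4)) (by linarith) (by linarith)
          (by nlinarith) ?_ (min_le_right (s / 4) _) ?_ h
        · rw [abs_le]; constructor <;> simp only <;> linarith
        · rw [ny] at hφ
          rw [hφ, ← mul_assoc, ← Complex.ofReal_mul] at hz
          exact hz
      · obtain ⟨p, hp, h⟩ := mem_iUnion₂.1 h
        have c1 := dist_ray (y := y) (p := p) ht (by rw [hn p hp, ny]; linarith)
        have c2 := dist_triangle_left ((τ : ℂ) * y) p z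
        rw [mem_ball] at h
        linarith [hs p hp]
      · rw [mem_closedBall_zero_iff] at h
        have c1 : ‖(τ : ℂ) * y‖ = τ * (7 / 5 + s / 4) := by
          rw [norm_mul, Complex.norm_real, Real.norm_eq_abs, abs_of_pos (by linarith), ny]
        rw [dist_eq_norm] at hz1
        have := abs_lt.1 ((abs_norm_sub_norm_le z _).trans_lt hz1)
        nlinarith [this.1]

end Pool.Agent.P.MP_d66c6d_pr
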